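import Mathlib

/-! Order types of well-founded subsets of a linear order. -/

namespace Pool.Agent.H31.Hahn

open Set Ordinal

variable {G : Type} [LinearOrder G]

theorem isWellOrder_of_isWF {T : Set G} (h : T.IsWF) :
    IsWellOrder T (fun a b : T => (a : G) < b) :=
  { trichotomous := by
      intro a b h1 h2
      rcases lt_trichotomy (a : G) b with h | h | h
      · exact absurd h h1
      · exact Subtype.ext h
      · exact absurd h h2
    wf := h }

open Classical in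
/-- The order type of a well-ordered subset `T` of a linear order (`0` if `T` is not
well-ordered). -/
noncomputable def otp (T : Set G) : Ordinal.{0} :=
  if h : T.IsWF then
    @Ordinal.type T (fun a b : T => (a : G) < b) (isWellOrder_of_isWF h)
  else 0

theorem otp_eq {T : Set G} (h : T.IsWF) :
    otp T = @Ordinal.type T (fun a b : T => (a : G) < b) (isWellOrder_of_isWF h) := by
  rw [otp, dif_pos h]

theorem otp_mono {S T : Set G} (hST : S ⊆ T) (hT : T.IsWF) : otp S ≤ otp T := by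
  have hS : S.IsWF := hT.mono hST
  rw [otp_eq hS, otp_eq hT]
  have := isWellOrder_of_isWF hS
  have := isWellOrder_of_isWF hT
  rw [type_le_iff']
  exact ⟨⟨⟨fun a => ⟨a.1, hST a.2⟩, fun a b h => Subtype.ext (by simpa using h)⟩, by
    intro a b
    exact Iff.rfl⟩⟩

theorem otp_empty : otp (∅ : Set G) = 0 := by
  rw [otp_eq isWF_empty]
  have := isWellOrder_of_isWF (isWF_empty (α := G))
  exact Ordinal.type_eq_zero_of_empty _

theorem card_otp {T : Set G} (hT : T.IsWF) : (otp T).card = Cardinal.mk T := by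
  rw [otp_eq hT]
  have := isWellOrder_of_isWF hT
  exact Ordinal.card_type _

theorem otp_eq_zero_iff {T : Set G} (hT : T.IsWF) : otp T = 0 ↔ T = ∅ := by
  rw [← Ordinal.card_eq_zero, card_otp hT, Cardinal.mk_eq_zero_iff, Set.isEmpty_coe_sort]

theorem one_le_otp_iff {T : Set G} (hT : T.IsWF) : 1 ≤ otp T ↔ T.Nonempty := by
  rw [Order.one_le_iff_pos, pos_iff_ne_zero, ne_eq, otp_eq_zero_iff hT,
    Set.nonempty_iff_ne_empty]

theorem otp_singleton (g : G) : otp ({g} : Set G) = 1 := by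
  have h : ({g} : Set G).IsWF := Set.Finite.isWF (Set.finite_singleton g)
  rw [← Ordinal.card_eq_one, card_otp h]
  simp

theorem omega_le_otp_iff {T : Set G} (hT : T.IsWF) : ω ≤ otp T ↔ T.Infinite := by
  rw [← Ordinal.aleph0_le_card, card_otp hT, Set.infinite_coe_iff.symm, Cardinal.aleph0_le_mk_iff]

theorem nat_le_otp_iff {T : Set G} (hT : T.IsWF) (n : ℕ) :
    (n : Ordinal) ≤ otp T ↔ ∃ t : Finset G, ↑t ⊆ T ∧ t.card = n := by
  rw [← Ordinal.nat_le_card, card_otp hT, Cardinal.le_mk_iff_exists_subset]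
  constructor
  · rintro ⟨p, hp, hc⟩
    obtain ⟨t, ht, htn⟩ := Cardinal.mk_set_eq_nat_iff_finset.1 hc
    exact ⟨t, by rw [ht]; exact hp, htn⟩
  · rintro ⟨t, ht, htn⟩
    exact ⟨t, ht, Cardinal.mk_set_eq_nat_iff_finset.2 ⟨t, rfl, htn⟩⟩

theorem otp_union {A B : Set G} (hA : A.IsWF) (hB : B.IsWF) (hAB : ∀ a ∈ A, ∀ b ∈ B, a < b) :
    otp (A ∪ B) = otp A + otp B := by
  have hU : (A ∪ B).IsWF := hA.union hB
  rw [otp_eq hA, otp_eq hB, otp_eq hU]
  have := isWellOrder_of_isWF hA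
  have := isWellOrder_of_isWF hB
  have := isWellOrder_of_isWF hU
  rw [← type_sum_lex]
  have hdis : Disjoint A B := Set.disjoint_left.2 fun x hx hx' => lt_irrefl _ (hAB x hx x hx')
  classical
  refine RelIso.ordinalType_congr ?_
  refine ⟨(Equiv.Set.union hdis), ?_⟩
  rintro ⟨a, ha⟩ ⟨b, hb⟩
  by_cases h1 : a ∈ A <;> by_cases h2 : b ∈ A
  · rw [Equiv.Set.union_apply_left hdis h1, Equiv.Set.union_apply_left hdis h2]
    simp
  · have h2' : b ∈ B := by simpa [h2] using hb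
    rw [Equiv.Set.union_apply_left hdis h1, Equiv.Set.union_apply_right hdis h2']
    simpa using hAB a h1 b h2'
  · have h1' : a ∈ B := by simpa [h1] using ha
    rw [Equiv.Set.union_apply_right hdis h1', Equiv.Set.union_apply_left hdis h2]
    simpa using (hAB b h2 a h1').le
  · have h1' : a ∈ B := by simpa [h1] using ha
    have h2' : b ∈ B := by simpa [h2] using hb
    rw [Equiv.Set.union_apply_right hdis h1', Equiv.Set.union_apply_right hdis h2']
    simp

theorem exists_otp_initial {T : Set G} (hT : T.IsWF) {ξ : Ordinal.{0}} (h : ξ < otp T) :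
    ∃ g ∈ T, otp (T ∩ Iio g) = ξ := by
  rw [otp_eq hT] at h
  have := isWellOrder_of_isWF hT
  obtain ⟨g, hg⟩ := (Ordinal.typein_surj (fun a b : T => (a : G) < b) h)
  refine ⟨g.1, g.2, ?_⟩
  have hI : (T ∩ Iio g.1).IsWF := hT.mono inter_subset_left
  rw [← hg, otp_eq hI, ← Ordinal.type_subrel]
  have := isWellOrder_of_isWF hI
  refine RelIso.ordinalType_congr ?_
  refine ⟨⟨fun a => ⟨⟨a.1, a.2.1⟩, a.2.2⟩, fun a => ⟨a.1.1, a.1.2, a.2⟩, fun a => rfl,
    fun a => rfl⟩, ?_⟩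
  intro a b
  exact Iff.rfl

theorem otp_initial_lt {T : Set G} (hT : T.IsWF) {g : G} (hg : g ∈ T) :
    otp (T ∩ Iio g) < otp T := by
  have h1 : otp (T ∩ Iio g ∪ {g}) ≤ otp T := by
    refine otp_mono ?_ hT
    rintro x (hx | hx)
    · exact hx.1
    · rw [mem_singleton_iff.1 hx]; exact hg
  rw [otp_union (hT.mono inter_subset_left) (Set.Finite.isWF (Set.finite_singleton g)),
    otp_singleton] at h1
  · exact lt_of_lt_of_le (lt_add_one _) h1
  · rintro a ⟨_, ha⟩ b hb
    rw [mem_singleton_iff.1 hb]; exact ha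

theorem otp_le_of_initial {T : Set G} (hT : T.IsWF) {ξ : Ordinal.{0}}
    (h : ∀ g ∈ T, otp (T ∩ Iio g) < ξ) : otp T ≤ ξ := by
  by_contra hc
  obtain ⟨g, hg, he⟩ := exists_otp_initial hT (not_le.1 hc)
  exact absurd (h g hg) (by rw [he]; exact lt_irrefl _)

theorem isWF_of_initial {T : Set G} (h : ∀ g ∈ T, (T ∩ Iio g).IsWF) : T.IsWF := by
  rw [isWF_iff_no_descending_seq]
  intro f hf hfT
  have h0 := h (f 0) (hfT 0)
  rw [isWF_iff_no_descending_seq] at h0
  refine h0 (fun n => f (n + 1)) ?_ ?_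
  · intro m n hmn
    exact hf (by omega)
  · intro n
    exact ⟨hfT _, hf (by omega)⟩

/-! ### Sums of `ω` many consecutive blocks -/

/-- Consecutive blocks: `T b` lies in the interval `(p b, p (b+1))`. -/
structure Blocks (p : ℕ → G) (T : ℕ → Set G) : Prop where
  mono : StrictMono p
  sub : ∀ b, T b ⊆ Ioo (p b) (p (b + 1))
  wf : ∀ b, (T b).IsWF

/-- The union of the first `n` blocks. -/
def part (T : ℕ → Set G) (n : ℕ) : Set G := ⋃ b ∈ Finset.range n, T b

theorem part_zero (T : ℕ → Set G) : part T 0 = ∅ := by simp [part]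

theorem part_succ (T : ℕ → Set G) (n : ℕ) : part T (n + 1) = part T n ∪ T n := by
  ext x
  simp only [part, mem_iUnion, Finset.mem_range, mem_union]
  constructor
  · rintro ⟨i, hi, hx⟩
    rcases Nat.lt_succ_iff_lt_or_eq.1 hi with h | h
    · exact Or.inl ⟨i, h, hx⟩
    · subst h; exact Or.inr hx
  · rintro (⟨i, hi, hx⟩ | hx)
    · exact ⟨i, by omega, hx⟩
    · exact ⟨n, by omega, hx⟩

namespace Blocks

variable {p : ℕ → G} {T : ℕ → Set G}

theorem part_wf (h : Blocks p T) (n : ℕ) : (part T n).IsWF := by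
  induction n with
  | zero => rw [part_zero]; exact isWF_empty
  | succ n ih => rw [part_succ]; exact ih.union (h.wf n)

theorem part_lt (h : Blocks p T) {n : ℕ} {x : G} (hx : x ∈ part T n) : x < p n := by
  simp only [part, mem_iUnion, Finset.mem_range] at hx
  obtain ⟨i, hi, hx⟩ := hx
  exact lt_of_lt_of_le (h.sub i hx).2 (h.mono.monotone (by omega))

theorem otp_part_succ (h : Blocks p T) (n : ℕ) :
    otp (part T (n + 1)) = otp (part T n) + otp (T n) := by
  rw [part_succ]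
  exact otp_union (h.part_wf n) (h.wf n) fun a ha b hb =>
    (h.part_lt ha).trans (h.sub n hb).1

theorem inter_Iio_sub (h : Blocks p T) {b : ℕ} {g : G} (hg : g ∈ T b) :
    (⋃ b, T b) ∩ Iio g ⊆ part T (b + 1) := by
  rintro x ⟨hx, hxg⟩
  obtain ⟨i, hi⟩ := mem_iUnion.1 hx
  simp only [part, mem_iUnion, Finset.mem_range]
  refine ⟨i, ?_, hi⟩
  by_contra hc
  have h1 : p (b + 1) ≤ p i := h.mono.monotone (by omega)
  have h2 := (h.sub i hi).1
  have h3 := (h.sub b hg).2
  exact absurd (mem_Iio.1 hxg) (not_lt.2 ((h3.le.trans h1).trans h2.le))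

theorem union_wf (h : Blocks p T) : (⋃ b, T b).IsWF := by
  refine isWF_of_initial ?_
  intro g hg
  obtain ⟨b, hb⟩ := mem_iUnion.1 hg
  exact (h.part_wf (b + 1)).mono (h.inter_Iio_sub hb)

theorem part_sub (n : ℕ) : part T n ⊆ ⋃ b, T b := by
  intro x hx
  simp only [part, mem_iUnion] at hx
  obtain ⟨i, _, hx⟩ := hx
  exact mem_iUnion.2 ⟨i, hx⟩

theorem union_sub (h : Blocks p T) {q : G} (hq : ∀ n, p n < q) : (⋃ b, T b) ⊆ Ioo (p 0) q := by
  intro x hx
  obtain ⟨b, hb⟩ := mem_iUnion.1 hx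
  exact ⟨lt_of_le_of_lt (h.mono.monotone (Nat.zero_le b)) (h.sub b hb).1,
    (h.sub b hb).2.trans (hq _)⟩

theorem otp_part_lt (h : Blocks p T) {ξ : Ordinal.{0}}
    (hT : ∀ b, otp (T b) < ω ^ ξ) (n : ℕ) : otp (part T n) < ω ^ ξ := by
  induction n with
  | zero =>
    rw [part_zero, otp_empty]
    exact opow_pos _ omega0_pos
  | succ n ih =>
    rw [h.otp_part_succ]
    exact isPrincipal_add_omega0_opow ξ ih (hT n)

/-- Blocks below `ω ^ ξ` give a sum of at most `ω ^ ξ`. -/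
theorem otp_union_le (h : Blocks p T) {ξ : Ordinal.{0}}
    (hT : ∀ b, otp (T b) < ω ^ ξ) : otp (⋃ b, T b) ≤ ω ^ ξ := by
  refine otp_le_of_initial h.union_wf ?_
  intro g hg
  obtain ⟨b, hb⟩ := mem_iUnion.1 hg
  exact lt_of_le_of_lt (otp_mono (h.inter_Iio_sub hb) (h.part_wf _)) (h.otp_part_lt hT _)

theorem shift (h : Blocks p T) (B : ℕ) : Blocks (fun n => p (n + B)) (fun n => T (n + B)) where
  mono := fun a b hab => h.mono (by omega)
  sub := fun b => by
    have := h.sub (b + B)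
    rwa [show b + B + 1 = b + 1 + B by omega] at this
  wf := fun b => h.wf _

/-- If all blocks are below `ω ^ ξ` and almost all blocks are below `ω ^ ρ` for some `ρ < ξ`, the
sum is below `ω ^ ξ`. -/
theorem otp_union_lt (h : Blocks p T) {ξ ρ : Ordinal.{0}} (hρ : ρ < ξ)
    (hT : ∀ b, otp (T b) < ω ^ ξ) {B : ℕ} (hB : ∀ b, B ≤ b → otp (T b) < ω ^ ρ) :
    otp (⋃ b, T b) < ω ^ ξ := by
  have he : (⋃ b, T b) = part T B ∪ ⋃ n, T (n + B) := by
    ext x
    simp only [part, mem_iUnion, Finset.mem_range, mem_union]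
    constructor
    · rintro ⟨i, hi⟩
      by_cases hiB : i < B
      · exact Or.inl ⟨i, hiB, hi⟩
      · exact Or.inr ⟨i - B, by rwa [Nat.sub_add_cancel (not_lt.1 hiB)]⟩
    · rintro (⟨i, _, hi⟩ | ⟨i, hi⟩)
      · exact ⟨i, hi⟩
      · exact ⟨_, hi⟩
  rw [he, otp_union (h.part_wf B) (h.shift B).union_wf]
  · refine isPrincipal_add_omega0_opow ξ (h.otp_part_lt hT B) ?_
    refine lt_of_le_of_lt ((h.shift B).otp_union_le (ξ := ρ) fun b => hB _ (by omega)) ?_
    exact (opow_lt_opow_iff_right one_lt_omega0).2 hρ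
  · intro a ha b hb
    obtain ⟨i, hi⟩ := mem_iUnion.1 hb
    exact (h.part_lt ha).trans (lt_of_le_of_lt (h.mono.monotone (by omega)) (h.sub _ hi).1)

theorem exists_mul_le (h : Blocks p T) {ρ : Ordinal.{0}}
    (hT : ∀ B, ∃ b, B ≤ b ∧ ω ^ ρ ≤ otp (T b)) (k : ℕ) :
    ∃ n, ω ^ ρ * (k : Ordinal) ≤ otp (part T n) := by
  induction k with
  | zero => exact ⟨0, by simp⟩
  | succ k ih =>
    obtain ⟨n, hn⟩ := ih
    obtain ⟨b, hb, hb2⟩ := hT n
    refine ⟨b + 1, ?_⟩
    rw [h.otp_part_succ, Nat.cast_succ, mul_add_one]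
    refine add_le_add (hn.trans ?_) hb2
    refine otp_mono ?_ (h.part_wf b)
    intro x hx
    simp only [part, mem_iUnion, Finset.mem_range] at hx ⊢
    obtain ⟨i, hi, hx⟩ := hx
    exact ⟨i, by omega, hx⟩

/-- If for each `ρ < γ` infinitely many blocks are at least `ω ^ ρ`, then the sum is at least
`ω ^ γ`. -/
theorem le_otp_union (h : Blocks p T) {γ : Ordinal.{0}} (hγ : γ ≠ 0)
    (hT : ∀ ρ < γ, ∀ B, ∃ b, B ≤ b ∧ ω ^ ρ ≤ otp (T b)) : ω ^ γ ≤ otp (⋃ b, T b) := by
  by_contra hc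
  obtain ⟨ρ, hρ, k, hk⟩ := (lt_omega0_opow hγ).1 (not_le.1 hc)
  obtain ⟨n, hn⟩ := h.exists_mul_le (hT ρ hρ) k
  exact absurd (lt_of_lt_of_le hk hn) (not_lt.2 (otp_mono (part_sub n) h.union_wf))

end Blocks

end Pool.Agent.H31.Hahn
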