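import Pool.Agent.H31.Hahn.Gate
import Pool.Agent.H31.Hahn.Otp

/-! Coding finitely many `Π⁰_{2·γ}` conditions into order types. -/

namespace Pool.Agent.H31.Hahn

open Set Ordinal

theorem exists_bound_lt {J : Type*} [Finite J] {γ : Ordinal.{0}} (h0 : γ ≠ 0)
    (r : J → Ordinal.{0}) (h : ∀ j, r j < γ) : ∃ ρ < γ, ∀ j, r j ≤ ρ := by
  rcases isEmpty_or_nonempty J with hJ | hJ
  · exact ⟨0, pos_iff_ne_zero.2 h0, fun j => (hJ.false j).elim⟩
  · obtain ⟨j0, hj0⟩ := Finite.exists_max r
    exact ⟨r j0, h j0, hj0⟩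

theorem exists_bound_nat {J : Type*} [Finite J] (r : J → ℕ) : ∃ K, ∀ j, r j ≤ K := by
  obtain ⟨K, hK⟩ := (Set.finite_range r).bddAbove
  exact ⟨K, fun j => hK (mem_range_self j)⟩

section Index

variable {I : Type*} [Fintype I] (lv : I → Ordinal.{0})

open Classical in
/-- The index used by `i` in block `b`. -/
noncomputable def idx (i : I) (b : ℕ × (I → ℕ)) : ℕ :=
  max b.1 (Finset.univ.sup fun i' => if lv i < lv i' then b.2 i' else 0)

theorem idx_le_iff (i : I) (b : ℕ × (I → ℕ)) (K : ℕ) :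
    idx lv i b ≤ K ↔ b.1 ≤ K ∧ ∀ i', lv i < lv i' → b.2 i' ≤ K := by
  classical
  rw [idx, max_le_iff, Finset.sup_le_iff]
  refine and_congr Iff.rfl ?_
  constructor
  · intro h i' hi'
    have := h i' (Finset.mem_univ _)
    rwa [if_pos hi'] at this
  · intro h i' _
    split_ifs with hi'
    · exact h i' hi'
    · exact Nat.zero_le _

theorem wf_lv : WellFounded (fun i' i : I => lv i < lv i') := by
  have h1 : IsTrans I (fun i' i : I => lv i < lv i') := ⟨fun a b c h1 h2 => h2.trans h1⟩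
  have h2 : Std.Irrefl (fun i' i : I => lv i < lv i') := ⟨fun a h => lt_irrefl _ h⟩
  exact Finite.wellFounded_of_trans_of_irrefl _

theorem exists_choice (μ : I → ℕ → ℕ) (n : ℕ) :
    ∃ m : I → ℕ, ∀ i, m i = μ i (idx lv i (n, m)) := by
  classical
  refine ⟨(wf_lv lv).fix (fun i rec => μ i (max n (Finset.univ.sup
    fun i' => if h : lv i < lv i' then rec i' h else 0))), fun i => ?_⟩
  rw [WellFounded.fix_eq, idx]
  congr 2

end Index

variable {G : Type} [LinearOrder G] [DenselyOrdered G]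

theorem exists_points (p q : G) (h : p < q) :
    ∃ P : ℕ → G, StrictMono P ∧ (∀ n, P n < q) ∧ p ≤ P 0 := by
  have key : ∀ r : {r : G // r < q}, ∃ r' : {r : G // r < q}, r.1 < r'.1 := by
    rintro ⟨r, hr⟩
    obtain ⟨s, h1, h2⟩ := exists_between hr
    exact ⟨⟨s, h2⟩, h1⟩
  choose f hf using key
  refine ⟨fun n => (f^[n] ⟨p, h⟩).1, strictMono_nat_of_lt_succ fun n => ?_, fun n => (f^[n] _).2,
    le_rfl⟩
  rw [Function.iterate_succ_apply']
  exact hf _

/-- What is to be constructed. -/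
structure Code (γ : Ordinal.{0}) (F : Set (Ordinal.{0} × Set Bai)) (p q : G)
    (S : Bai → Set G) : Prop where
  clopen : ∀ g, IsClopen {x | g ∈ S x}
  sub : ∀ x, S x ⊆ Ioo p q
  wf : ∀ x, (S x).IsWF
  le : ∀ x, otp (S x) ≤ ω ^ γ
  ge : ∀ x, (∀ f ∈ F, x ∈ f.2) → ∀ f ∈ F, ω ^ f.1 ≤ otp (S x)
  lt : ∀ x, ∀ f ∈ F, x ∉ f.2 → otp (S x) < ω ^ f.1

theorem code_zero (F : Set (Ordinal.{0} × Set Bai)) (hF : F.Finite)
    (hl : ∀ f ∈ F, f.1 ≤ 0 ∧ PP f.1 f.2) (p q : G) (hpq : p < q) :
    ∃ S, Code 0 F p q S := by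
  obtain ⟨g0, hg1, hg2⟩ := exists_between hpq
  have hcl : IsClopen (⋂ f ∈ F, f.2) := by
    refine hF.isClopen_biInter fun f hf => ?_
    obtain ⟨h1, h2⟩ := hl f hf
    rw [nonpos_iff_eq_zero.1 h1] at h2
    exact h2.zero
  classical
  refine ⟨fun x => if x ∈ ⋂ f ∈ F, f.2 then {g0} else ∅, ?_, ?_, ?_, ?_, ?_, ?_⟩
  · intro g
    by_cases hg : g = g0
    · have : {x | g ∈ (if x ∈ ⋂ f ∈ F, f.2 then {g0} else ∅ : Set G)} = ⋂ f ∈ F, f.2 := by
        ext x
        rw [mem_ofPred_eq]
        split_ifs with h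
        · simp only [hg, mem_singleton_iff, true_iff]; exact h
        · simp only [mem_empty_iff_false, false_iff]; exact h
      rw [this]; exact hcl
    · have : {x | g ∈ (if x ∈ ⋂ f ∈ F, f.2 then {g0} else ∅ : Set G)} = ∅ := by
        ext x
        rw [mem_ofPred_eq]
        split_ifs with h
        · simp [hg]
        · simp
      rw [this]; exact isClopen_empty
  · intro x
    split_ifs with h
    · rw [singleton_subset_iff]; exact ⟨hg1, hg2⟩
    · exact empty_subset _
  · intro x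
    split_ifs with h
    · exact (finite_singleton _).isWF
    · exact isWF_empty
  · intro x
    rw [opow_zero]
    split_ifs with h
    · exact (otp_singleton _).le
    · rw [otp_empty]; exact zero_le
  · intro x hx f hf
    have h : x ∈ ⋂ f ∈ F, f.2 := mem_iInter₂.2 hx
    rw [if_pos h, otp_singleton, nonpos_iff_eq_zero.1 (hl f hf).1, opow_zero]
  · intro x f hf hx
    have h : x ∉ ⋂ f ∈ F, f.2 := fun h => hx (mem_iInter₂.1 h f hf)
    rw [if_neg h, otp_empty]
    exact opow_pos _ omega0_pos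

theorem exists_code (γ : Ordinal.{0}) (hc : (Iio γ).Countable) :
    ∀ (F : Set (Ordinal.{0} × Set Bai)), F.Finite → (∀ f ∈ F, f.1 ≤ γ ∧ PP f.1 f.2) →
      ∀ p q : G, p < q → ∃ S, Code γ F p q S := by
  induction γ using WellFoundedLT.induction with
  | ind γ IH =>
    intro F hF hl p q hpq
    by_cases hγ : γ = 0
    · subst hγ
      exact code_zero F hF hl p q hpq
    have hγpos : 0 < γ := pos_iff_ne_zero.2 hγ
    -- the index type
    let I : Type 1 := {f : Ordinal.{0} × Set Bai // f ∈ F ∧ f.1 ≠ 0}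
    have hIfin : Finite I := (hF.subset (fun f hf => hf.1) : {f | f ∈ F ∧ f.1 ≠ 0}.Finite).to_subtype
    have hIft : Fintype I := Fintype.ofFinite I
    let lv : I → Ordinal.{0} := fun i => i.1.1
    have hgate : ∀ i : I, ∃ C, Gate i.1.1 i.1.2 C := fun i =>
      exists_gate i.1.1 i.2.2 (hc.mono (Iio_subset_Iio (hl i.1 i.2.1).1)) i.1.2 (hl i.1 i.2.1).2
    choose C hC using hgate
    -- the families of the blocks
    let Fam : ℕ × (I → ℕ) → Set (Ordinal.{0} × Set Bai) := fun b =>
      (⋃ i : I, C i (idx lv i b) (b.2 i)) ∪ {f | f ∈ F ∧ f.1 < γ}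
    have hFamC : ∀ b i f, f ∈ C i (idx lv i b) (b.2 i) → f ∈ Fam b := fun b i f hf =>
      Or.inl (mem_iUnion.2 ⟨i, hf⟩)
    have hFamfin : ∀ b, (Fam b).Finite := fun b =>
      (finite_iUnion fun i => (hC i).fin _ _).union (hF.subset fun f hf => hf.1)
    have hFamlv : ∀ b, ∀ f ∈ Fam b, f.1 < γ ∧ PP f.1 f.2 := by
      rintro b f (hf | hf)
      · obtain ⟨i, hi⟩ := mem_iUnion.1 hf
        obtain ⟨h1, h2⟩ := (hC i).lev _ _ f hi
        exact ⟨lt_of_lt_of_le h1 (hl i.1 i.2.1).1, h2⟩
      · exact ⟨hf.2, (hl f hf.1).2⟩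
    have hFambd : ∀ b, ∃ δ < γ, ∀ f ∈ Fam b, f.1 ≤ δ := by
      intro b
      rcases (Fam b).eq_empty_or_nonempty with he | hne
      · exact ⟨0, hγpos, fun f hf => by rw [he] at hf; exact absurd hf (notMem_empty _)⟩
      · obtain ⟨a, ha, ha2⟩ := Set.exists_max_image (Fam b) (fun f => f.1) (hFamfin b) hne
        exact ⟨a.1, (hFamlv b a ha).1, ha2⟩
    -- enumeration of the blocks
    have hcb : Countable (ℕ × (I → ℕ)) := inferInstance
    have hib : Infinite (ℕ × (I → ℕ)) := inferInstance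
    obtain ⟨e⟩ : Nonempty (ℕ ≃ ℕ × (I → ℕ)) := nonempty_equiv_of_countable
    obtain ⟨P, hP1, hP2, hP3⟩ := exists_points p q hpq
    have hT : ∀ k, ∃ S : Bai → Set G, Code γ (Fam (e k)) (P k) (P (k + 1)) S ∧
        ∀ x, otp (S x) < ω ^ γ := by
      intro k
      obtain ⟨δ, hδ, hδF⟩ := hFambd (e k)
      obtain ⟨S, hS⟩ := IH δ hδ (hc.mono (Iio_subset_Iio hδ.le)) (Fam (e k)) (hFamfin _)
        (fun f hf => ⟨hδF f hf, (hFamlv _ f hf).2⟩) (P k) (P (k + 1)) (hP1 (Nat.lt_succ_self k))
      have hlt : ∀ x, otp (S x) < ω ^ γ := fun x => lt_of_le_of_lt (hS.le x)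
        ((opow_lt_opow_iff_right one_lt_omega0).2 hδ)
      exact ⟨S, ⟨hS.clopen, hS.sub, hS.wf, fun x => (hlt x).le, hS.ge, hS.lt⟩, hlt⟩
    choose T hT1 hT2 using hT
    have hB : ∀ x, Blocks P (fun k => T k x) := fun x =>
      ⟨hP1, fun k => (hT1 k).sub x, fun k => (hT1 k).wf x⟩
    refine ⟨fun x => ⋃ k, T k x, ?_, ?_, ?_, ?_, ?_, ?_⟩
    · intro g
      by_cases hg : ∃ k, g ∈ Ioo (P k) (P (k + 1))
      · obtain ⟨k, hk⟩ := hg
        have he : {x | g ∈ ⋃ k, T k x} = {x | g ∈ T k x} := by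
          ext x
          simp only [mem_ofPred_eq, mem_iUnion]
          constructor
          · rintro ⟨j, hj⟩
            have hj' := (hT1 j).sub x hj
            have : j = k := by
              rcases lt_trichotomy j k with h | h | h
              · have h1 : P (j + 1) ≤ P k := hP1.monotone (by omega)
                exact absurd (hj'.2.trans_le h1) (not_lt.2 hk.1.le)
              · exact h
              · have h1 : P (k + 1) ≤ P j := hP1.monotone (by omega)
                exact absurd (hk.2.trans_le h1) (not_lt.2 hj'.1.le)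
            rwa [this] at hj
          · intro h
            exact ⟨k, h⟩
        rw [he]
        exact (hT1 k).clopen g
      · have he : {x | g ∈ ⋃ k, T k x} = ∅ := by
          ext x
          simp only [mem_ofPred_eq, mem_iUnion, mem_empty_iff_false, iff_false]
          rintro ⟨j, hj⟩
          exact hg ⟨j, (hT1 j).sub x hj⟩
        rw [he]
        exact isClopen_empty
    · intro x
      exact ((hB x).union_sub hP2).trans (Ioo_subset_Ioo_left hP3)
    · intro x
      exact (hB x).union_wf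
    · intro x
      exact (hB x).otp_union_le fun k => hT2 k x
    · -- success
      intro x hx f hf
      have hx1 : ∀ i : I, ∀ N, ∃ m, ∀ g ∈ C i N m, x ∈ g.2 := fun i N =>
        (hC i).c1 x (hx i.1 i.2.1) N
      choose μ hμ using hx1
      choose m hm using exists_choice lv μ
      have hall : ∀ n, ∀ g ∈ Fam (n, m n), x ∈ g.2 := by
        rintro n g (hg | hg)
        · obtain ⟨i, hi⟩ := mem_iUnion.1 hg
          have : (n, m n).2 i = μ i (idx lv i (n, m n)) := hm n i
          rw [this] at hi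
          exact hμ i _ g hi
        · exact hx g hg.1
      by_cases hfγ : f.1 < γ
      · have hk : (0, m 0) = e (e.symm (0, m 0)) := (e.apply_symm_apply _).symm
        have h1 : ω ^ f.1 ≤ otp (T (e.symm (0, m 0)) x) := by
          refine (hT1 (e.symm (0, m 0))).ge x ?_ f ?_
          · rw [← hk]; exact hall 0
          · rw [← hk]; exact Or.inr ⟨hf, hfγ⟩
        exact h1.trans (otp_mono (subset_iUnion (fun k => T k x) _) (hB x).union_wf)
      · have hfeq : f.1 = γ := le_antisymm (hl f hf).1 (not_lt.1 hfγ)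
        have hf0 : f.1 ≠ 0 := by rw [hfeq]; exact hγ
        rw [hfeq]
        refine (hB x).le_otp_union hγ ?_
        intro ρ hρ B
        let i : I := ⟨f, hf, hf0⟩
        obtain ⟨N0, hN0⟩ := (hC i).c4 ρ (by rw [hfeq]; exact hρ)
        have hinj : Function.Injective (fun n => e.symm (n + N0, m (n + N0))) := by
          intro a b hab
          have h1 := e.symm.injective hab
          have h2 := congrArg Prod.fst h1
          simpa using h2
        obtain ⟨k, ⟨n, hn⟩, hk⟩ := (Set.infinite_range_of_injective hinj).exists_gt B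
        refine ⟨k, hk.le, ?_⟩
        have hek : e k = (n + N0, m (n + N0)) := by rw [← hn]; exact e.apply_symm_apply _
        obtain ⟨g, hg, hg2⟩ := hN0 (idx lv i (n + N0, m (n + N0)))
          ((Nat.le_add_left N0 n).trans ((idx_le_iff lv i (n + N0, m (n + N0)) _).1 le_rfl).1)
          (m (n + N0) i)
        refine le_trans ((opow_le_opow_iff_right one_lt_omega0).2 hg2)
          ((hT1 k).ge x ?_ g ?_)
        · rw [hek]; exact hall _
        · rw [hek]; exact hFamC _ i g hg
    · -- failure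
      intro x f hf hx
      by_cases hf0 : f.1 = 0
      · have hemp : ∀ k, T k x = ∅ := by
          intro k
          have h1 := (hT1 k).lt x f (Or.inr ⟨hf, by rw [hf0]; exact hγpos⟩) hx
          rw [hf0, opow_zero, Order.lt_one_iff] at h1
          exact (otp_eq_zero_iff ((hT1 k).wf x)).1 h1
        have : (⋃ k, T k x) = ∅ := by simp [hemp]
        rw [this, otp_empty]
        exact opow_pos _ omega0_pos
      · let i : I := ⟨f, hf, hf0⟩
        let Fail : ℕ × (I → ℕ) → Ordinal.{0} → Prop := fun b ρ => ∃ g ∈ Fam b, g.1 ≤ ρ ∧ x ∉ g.2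
        have hFmono : ∀ b ρ ρ', ρ ≤ ρ' → ¬ Fail b ρ' → ¬ Fail b ρ := by
          rintro b ρ ρ' h hn ⟨g, hg, hg2, hg3⟩
          exact hn ⟨g, hg, hg2.trans h, hg3⟩
        obtain ⟨N0, ρ0, hρ0, hN0⟩ := (hC i).c3 x hx
        have hbase : ∀ b, ¬ Fail b ρ0 → idx lv i b ≤ N0 := by
          intro b hb
          by_contra hc
          obtain ⟨g, hg, hg2, hg3⟩ := hN0 (idx lv i b) (not_le.1 hc).le (b.2 i)
          exact hb ⟨g, hFamC b i g hg, hg2, hg3⟩
        have hQ : ∀ i' : I, ∃ ρ < f.1, ∃ K, ∀ b, ¬ Fail b ρ → b.2 i' ≤ K := by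
          intro i'
          induction i' using (wf_lv lv).induction with
          | _ i' ih =>
            by_cases hi' : lv i < lv i'
            · exact ⟨ρ0, hρ0, N0, fun b hb => ((idx_le_iff lv i b N0).1 (hbase b hb)).2 i' hi'⟩
            · have hle : lv i' ≤ f.1 := not_lt.1 hi'
              have ih' : ∀ j : {j : I // lv i' < lv j}, ∃ ρ < f.1, ∃ K, ∀ b, ¬ Fail b ρ →
                  b.2 j.1 ≤ K := fun j => ih j.1 j.2
              choose ρ1 hρ1 K1 hK1 using ih'
              obtain ⟨ρ2, hρ2, hρ2'⟩ := exists_bound_lt hf0 ρ1 hρ1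
              obtain ⟨K2, hK2⟩ := exists_bound_nat K1
              have hc2 : ∀ N : Fin (max N0 K2 + 1), ∃ M, ∃ ρ < f.1, ∀ m, M < m →
                  ∃ g ∈ C i' N m, g.1 ≤ ρ ∧ x ∉ g.2 := by
                intro N
                obtain ⟨M, ρ, hρ, h⟩ := (hC i').c2 x N
                exact ⟨M, ρ, lt_of_lt_of_le hρ hle, h⟩
              choose M3 ρ3 hρ3 hM3 using hc2
              obtain ⟨ρ4, hρ4, hρ4'⟩ := exists_bound_lt hf0 ρ3 hρ3
              obtain ⟨K4, hK4⟩ := exists_bound_nat M3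
              refine ⟨max ρ0 (max ρ2 ρ4), max_lt hρ0 (max_lt hρ2 hρ4), K4, ?_⟩
              intro b hb
              have hb0 := hFmono b ρ0 _ (le_max_left _ _) hb
              have hb2 := hFmono b ρ2 _ ((le_max_left _ _).trans (le_max_right _ _)) hb
              have hb4 := hFmono b ρ4 _ ((le_max_right _ _).trans (le_max_right _ _)) hb
              have hidx : idx lv i' b ≤ max N0 K2 := by
                rw [idx_le_iff]
                refine ⟨?_, fun j hj => ?_⟩
                · exact (((idx_le_iff lv i b N0).1 (hbase b hb0)).1).trans (le_max_left _ _)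
                · exact ((hK1 ⟨j, hj⟩ b (hFmono b _ _ (hρ2' ⟨j, hj⟩) hb2)).trans
                    (hK2 ⟨j, hj⟩)).trans (le_max_right _ _)
              by_contra hcon
              have hNlt : idx lv i' b < max N0 K2 + 1 := Nat.lt_succ_of_le hidx
              obtain ⟨g, hg, hg2, hg3⟩ := hM3 ⟨idx lv i' b, hNlt⟩ (b.2 i')
                (lt_of_le_of_lt (hK4 _) (not_le.1 hcon))
              exact hb4 ⟨g, hFamC b i' g hg, hg2.trans (hρ4' _), hg3⟩
        choose ρ1 hρ1 K1 hK1 using hQ
        obtain ⟨ρ2, hρ2, hρ2'⟩ := exists_bound_lt hf0 ρ1 hρ1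
        obtain ⟨K2, hK2⟩ := exists_bound_nat K1
        -- all but finitely many blocks fail at level `max ρ0 ρ2`
        have hfinset : {b : ℕ × (I → ℕ) | ¬ Fail b (max ρ0 ρ2)}.Finite := by
          have hpi : ((Iic N0) ×ˢ (Set.pi Set.univ fun _ : I => Iic K2)).Finite :=
            (finite_Iic N0).prod (Set.Finite.pi fun _ => finite_Iic K2)
          refine hpi.subset ?_
          intro b hb
          have hb0 := hFmono b ρ0 _ (le_max_left _ _) hb
          have hb2 := hFmono b ρ2 _ (le_max_right _ _) hb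
          refine ⟨((idx_le_iff lv i b N0).1 (hbase b hb0)).1, fun j _ => ?_⟩
          exact (hK1 j b (hFmono b _ _ (hρ2' j) hb2)).trans (hK2 j)
        obtain ⟨B, hBd⟩ := (hfinset.image e.symm).bddAbove
        have hall : ∀ k, otp (T k x) < ω ^ f.1 := by
          intro k
          rcases lt_or_eq_of_le (hl f hf).1 with h | h
          · exact (hT1 k).lt x f (Or.inr ⟨hf, h⟩) hx
          · rw [h]; exact hT2 k x
        refine (hB x).otp_union_lt (ρ := max ρ0 ρ2) (max_lt hρ0 hρ2) hall (B := B + 1) ?_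
        intro k hk
        have hFk : Fail (e k) (max ρ0 ρ2) := by
          by_contra hc
          have : k ≤ B := hBd ⟨e k, hc, e.symm_apply_apply k⟩
          omega
        obtain ⟨g, hg, hg2, hg3⟩ := hFk
        exact lt_of_lt_of_le ((hT1 k).lt x g hg hg3) ((opow_le_opow_iff_right one_lt_omega0).2 hg2)

end Pool.Agent.H31.Hahn
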