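import Pool.Agent.H31.Hahn.Defs
import Pool.Agent.H31.Hahn.Star

/-! Sharpness of the bounds. -/

namespace Pool.Agent.H31.Hahn

open Set Ordinal

theorem IsNotation.countable {o : ℕ → Ordinal.{0}} (h : IsNotation o) (a : ℕ) :
    (Iio (o a)).Countable :=
  (countable_range o).mono fun β hβ => h.init a β hβ

/-- Pulling back an effective `Σ_γ` relation along a continuous map gives a boldface `Σ⁰_γ`
set. -/
theorem IsCodeSystem.pullback {S : Type} {rep : S → ℕ → ℕ} {o : ℕ → Ordinal.{0}} {lev : ℕ → ℕ}
    {child : ℕ → ℕ → Option (List ℕ ⊕ ℕ)} {V : ℕ → S → Prop}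
    (h : IsCodeSystem rep o lev child V) (Φ : Bai → S) (hΦ : Continuous fun x => rep (Φ x)) :
    ∀ c, 1 ≤ o (lev c) → BS (o (lev c)) {x | V c (Φ x)} := by
  intro c
  have hwf : WellFounded fun c d : ℕ => o (lev c) < o (lev d) :=
    InvImage.wf (fun c => o (lev c)) Ordinal.lt_wf
  induction c using hwf.induction with
  | _ c ih =>
    intro h1
    have he : {x | V c (Φ x)} = ⋃ m, {x | (∃ σ : List ℕ, child c m = some (Sum.inl σ) ∧
        ∀ i (h : i < σ.length), rep (Φ x) i = σ[i]) ∨
          ∃ d, child c m = some (Sum.inr d) ∧ ¬ V d (Φ x)} := by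
      ext x
      rw [mem_ofPred_eq, h.eval, mem_iUnion]
      rfl
    rw [he]
    refine BS.union _ _ fun m => ?_
    rcases hcm : child c m with _ | (σ | d)
    · have : {x | (∃ σ : List ℕ, (none : Option (List ℕ ⊕ ℕ)) = some (Sum.inl σ) ∧
        ∀ i (h : i < σ.length), rep (Φ x) i = σ[i]) ∨
          ∃ d, (none : Option (List ℕ ⊕ ℕ)) = some (Sum.inr d) ∧ ¬ V d (Φ x)} = ∅ := by
        ext x; simp
      rw [this]
      exact BS.clopen _ _ h1 isClopen_empty
    · have : {x | (∃ τ : List ℕ, (some (Sum.inl σ) : Option (List ℕ ⊕ ℕ)) = some (Sum.inl τ) ∧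
        ∀ i (h : i < τ.length), rep (Φ x) i = τ[i]) ∨
          ∃ d, (some (Sum.inl σ) : Option (List ℕ ⊕ ℕ)) = some (Sum.inr d) ∧ ¬ V d (Φ x)} =
          (fun x => rep (Φ x)) ⁻¹' (Cyl σ) := by
        ext x
        simp only [mem_ofPred_eq, mem_preimage, Cyl, Option.some.injEq, Sum.inl.injEq,
          reduceCtorEq, false_and, exists_false, or_false]
        constructor
        · rintro ⟨τ, rfl, hτ⟩
          exact hτ
        · intro hx
          exact ⟨σ, rfl, hx⟩
      rw [this]
      exact BS.clopen _ _ h1 ((isClopen_cyl σ).preimage hΦ)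
    · have hlt := h.lower c m d hcm
      have : {x | (∃ τ : List ℕ, (some (Sum.inr d) : Option (List ℕ ⊕ ℕ)) = some (Sum.inl τ) ∧
        ∀ i (h : i < τ.length), rep (Φ x) i = τ[i]) ∨
          ∃ d', (some (Sum.inr d) : Option (List ℕ ⊕ ℕ)) = some (Sum.inr d') ∧ ¬ V d' (Φ x)} =
          {x | V d (Φ x)}ᶜ := by
        ext x
        simp only [mem_ofPred_eq, mem_compl_iff, Option.some.injEq, Sum.inr.injEq,
          reduceCtorEq, false_and, exists_false, false_or]
        constructor
        · rintro ⟨d', rfl, hd⟩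
          exact hd
        · intro hx
          exact ⟨d, rfl, hx⟩
      rw [this]
      by_cases hd : 1 ≤ o (lev d)
      · exact BS.compl _ _ _ hlt (ih d hlt hd)
      · have hemp : {x | V d (Φ x)} = ∅ := by
          ext x
          simp only [mem_ofPred_eq, mem_empty_iff_false, iff_false]
          rw [h.eval]
          rintro ⟨k, ⟨τ, hτ, _⟩ | ⟨d', hd', _⟩⟩
          · exact hd (Order.one_le_iff_pos.2 (h.basic d k τ hτ))
          · exact hd (Order.one_le_iff_pos.2 (lt_of_le_of_lt zero_le (h.lower d k d' hd')))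
        rw [hemp, compl_empty]
        exact BS.clopen _ _ h1 isClopen_univ

variable {G K : Type} [Field K] [AddCommGroup G] [LinearOrder G]

open Classical in
/-- The Hahn series with coefficients `1` on the well-ordered set `T`. -/
noncomputable def ser (K : Type) [Field K] (T : Set G) (hT : T.IsWF) : HahnSeries G K where
  coeff g := if g ∈ T then 1 else 0
  isPWO_support' := by
    refine hT.isPWO.mono ?_
    intro g hg
    by_contra h
    exact hg (if_neg h)

theorem support_ser (T : Set G) (hT : T.IsWF) : (ser K T hT).support = T := by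
  ext g
  simp [ser]

theorem length_ser (T : Set G) (hT : T.IsWF) : length (ser K T hT) = otp T := by
  rw [length_eq, support_ser]

theorem continuous_ser (PK : FieldPres K) (PG : GroupPres G) (S : Bai → Set G)
    (hS : ∀ g, IsClopen {x | g ∈ S x}) (hwf : ∀ x, (S x).IsWF) :
    Continuous fun x => rep PK PG (ser K (S x) (hwf x)) := by
  classical
  refine continuous_pi fun n => ?_
  have : (fun x => rep PK PG (ser K (S x) (hwf x)) n) =
      fun x => if x ∈ {x | PG.e n ∈ S x} then PK.e.symm 1 else PK.e.symm 0 := by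
    funext x
    simp only [rep, ser, mem_ofPred_eq]
    split_ifs <;> rfl
  rw [this]
  exact Continuous.if (fun a ha => by
    have := (hS (PG.e n)).frontier_eq
    rw [show {a | a ∈ {x | PG.e n ∈ S x}} = {x | PG.e n ∈ S x} from rfl, this] at ha
    exact absurd ha (notMem_empty _)) continuous_const continuous_const

variable [DenselyOrdered G] [Nontrivial G]

theorem exists_lt_pair : ∃ p q : G, p < q := by
  obtain ⟨a, b, hab⟩ := exists_pair_ne G
  rcases lt_or_gt_of_ne hab with h | h
  · exact ⟨a, b, h⟩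
  · exact ⟨b, a, h⟩

theorem hard_pi (PK : FieldPres K) (PG : GroupPres G) (β : Ordinal.{0}) (hβ : β ≠ 0) :
    ¬ SigmaRel (rep PK PG) (2 * β) fun s => ω ^ β ≤ length s := by
  rintro ⟨o, ho, lev, child, V, hV, c, hc, hR⟩
  have hcount : (Iio (2 * β)).Countable := by rw [← hc]; exact ho.countable _
  have h12 : (1 : Ordinal.{0}) ≤ 2 * β := two_mul_pos hβ
  obtain ⟨A, hA1, hA2⟩ := exists_not_pi (2 * β) h12 hcount
  have hle : β ≤ 2 * β := Ordinal.le_mul_right β (by norm_num)
  obtain ⟨p, q, hpq⟩ := exists_lt_pair (G := G)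
  obtain ⟨S, hS⟩ := exists_code β (hcount.mono (Iio_subset_Iio hle)) {(β, Aᶜ)}
    (finite_singleton _) (by
      intro f hf
      rw [mem_singleton_iff.1 hf]
      exact ⟨le_rfl, Or.inr ⟨hβ, by rwa [compl_compl]⟩⟩) p q hpq
  have key := hV.pullback (fun x => ser K (S x) (hS.wf x))
    (continuous_ser PK PG S hS.clopen hS.wf) c (by rw [hc]; exact h12)
  rw [hc] at key
  have he : {x | V c (ser K (S x) (hS.wf x))} = Aᶜ := by
    ext x
    rw [mem_ofPred_eq, ← hR]
    beta_reduce
    rw [length_ser]
    constructor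
    · intro h
      by_contra hx
      exact absurd (hS.lt x (β, Aᶜ) rfl hx) (not_lt.2 h)
    · intro hx
      exact hS.ge x (fun f hf => by rw [mem_singleton_iff.1 hf]; exact hx) (β, Aᶜ) rfl
  rw [he] at key
  exact hA2 key

theorem hard_sigma (PK : FieldPres K) (PG : GroupPres G) (β α : Ordinal.{0})
    (h1 : ω ^ β ≤ α) (h2 : α < ω ^ (β + 1)) (h3 : β = 0 ∨ α ≠ ω ^ β) :
    ¬ PiRel (rep PK PG) (2 * β + 1) fun s => α ≤ length s := by
  rintro ⟨o, ho, lev, child, V, hV, c, hc, hR⟩
  have hcount : (Iio (2 * β + 1)).Countable := by rw [← hc]; exact ho.countable _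
  have h12 : (1 : Ordinal.{0}) ≤ 2 * β + 1 := Order.one_le_iff_pos.2 (add_pos_of_right zero_lt_one _)
  obtain ⟨A, hA1, hA2⟩ := exists_not_pi (2 * β + 1) h12 hcount
  have hle : β ≤ 2 * β + 1 := (Ordinal.le_mul_right β (by norm_num)).trans (le_add_of_nonneg_right zero_le)
  have hβc : (Iio β).Countable := hcount.mono (Iio_subset_Iio hle)
  obtain ⟨f, hf, hl⟩ := hA1.normal
  obtain ⟨p, q, hpq⟩ := exists_lt_pair (G := G)
  obtain ⟨P, hP1, hP2, hP3⟩ := exists_points p q hpq
  have hT : ∀ k : ℕ, ∃ S : Bai → Set G,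
      Code β {(β, f k.unpair.1)} (P k) (P (k + 1)) S := by
    intro k
    refine exists_code β hβc _ (finite_singleton _) ?_ _ _ (hP1 (Nat.lt_succ_self k))
    intro g hg
    rw [mem_singleton_iff.1 hg]
    exact ⟨le_rfl, PP.of_low (hl _)⟩
  choose T hT using hT
  have hB : ∀ x, Blocks P (fun k => T k x) := fun x =>
    ⟨hP1, fun k => (hT k).sub x, fun k => (hT k).wf x⟩
  have hclopen : ∀ g, IsClopen {x | g ∈ ⋃ k, T k x} := by
    intro g
    by_cases hg : ∃ k, g ∈ Ioo (P k) (P (k + 1))
    · obtain ⟨k, hk⟩ := hg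
      have he : {x | g ∈ ⋃ k, T k x} = {x | g ∈ T k x} := by
        ext x
        simp only [mem_ofPred_eq, mem_iUnion]
        constructor
        · rintro ⟨j, hj⟩
          have hj' := (hT j).sub x hj
          have : j = k := by
            rcases lt_trichotomy j k with h | h | h
            · have h1 : P (j + 1) ≤ P k := hP1.monotone (by omega)
              exact absurd (hj'.2.trans_le h1) (not_lt.2 hk.1.le)
            · exact h
            · have h1 : P (k + 1) ≤ P j := hP1.monotone (by omega)
              exact absurd (hk.2.trans_le h1) (not_lt.2 hj'.1.le)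
          rwa [this] at hj
        · intro h
          exact ⟨k, h⟩
      rw [he]
      exact (hT k).clopen g
    · have he : {x | g ∈ ⋃ k, T k x} = ∅ := by
        ext x
        simp only [mem_ofPred_eq, mem_iUnion, mem_empty_iff_false, iff_false]
        rintro ⟨j, hj⟩
        exact hg ⟨j, (hT j).sub x hj⟩
      rw [he]
      exact isClopen_empty
  have key := hV.pullback (fun x => ser K (⋃ k, T k x) (hB x).union_wf)
    (continuous_ser PK PG _ hclopen fun x => (hB x).union_wf) c (by rw [hc]; exact h12)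
  rw [hc] at key
  have he : {x | V c (ser K (⋃ k, T k x) (hB x).union_wf)} = Aᶜ := by
    ext x
    rw [mem_ofPred_eq, ← hR]
    beta_reduce
    rw [length_ser, mem_compl_iff, not_iff_not]
    constructor
    · intro h
      by_contra hx
      have hno : ∀ k : ℕ, x ∉ f k.unpair.1 := fun k hk => hx (by rw [hf]; exact mem_iUnion.2 ⟨_, hk⟩)
      have hlt : ∀ k, otp (T k x) < ω ^ β := fun k => (hT k).lt x (β, _) rfl (hno k)
      rcases h3 with h3 | h3
      · have hemp : ∀ k, T k x = ∅ := by
          intro k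
          have h4 := hlt k
          rw [h3, opow_zero, Order.lt_one_iff] at h4
          exact (otp_eq_zero_iff ((hT k).wf x)).1 h4
        have : (⋃ k, T k x) = ∅ := by simp [hemp]
        rw [this, otp_empty] at h
        rw [h3, opow_zero] at h1
        exact absurd (h1.trans h) (not_le.2 zero_lt_one)
      · exact h3 (le_antisymm (h.trans ((hB x).otp_union_le hlt)) h1)
    · intro hx
      rw [hf] at hx
      obtain ⟨m, hm⟩ := mem_iUnion.1 hx
      refine h2.le.trans ((hB x).le_otp_union (add_pos_of_right zero_lt_one β).ne' ?_)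
      intro ρ hρ B
      refine ⟨Nat.pair m B, Nat.right_le_pair m B, ?_⟩
      refine le_trans ((opow_le_opow_iff_right one_lt_omega0).2 (Order.lt_add_one_iff.1 hρ)) ?_
      refine (hT (Nat.pair m B)).ge x ?_ (β, _) rfl
      intro g hg
      rw [mem_singleton_iff.1 hg, Nat.unpair_pair]
      exact hm
  rw [he] at key
  exact hA2 key

end Pool.Agent.H31.Hahn
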