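import Pool.Agent.H31.Hahn.Comp
import Pool.Agent.H31.Hahn.Hard

/-! The upper bounds. -/

namespace Pool.Agent.H31.Hahn

open Set Ordinal Encodable

variable {G K : Type} [Field K] [AddCommGroup G] [LinearOrder G]

theorem o2_levN_S (o : ℕ → Ordinal.{0}) (b0 c : ℕ) (cs : List ℕ) (a b : ℕ) :
    o2 o (levN b0 (ndS c cs a b)) = 2 * o c + 1 := by
  simp [o2, levN, ndS]

theorem o2_levN_M (o : ℕ → Ordinal.{0}) (b0 c : ℕ) (cs l : List ℕ) :
    o2 o (levN b0 (ndM c cs l)) = 2 * o c := by
  simp [o2, levN, ndM]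

theorem o2_levN_R {o : ℕ → Ordinal.{0}} {b0 : ℕ} (hb0 : o b0 = 0) (k a b : ℕ) :
    o2 o (levN b0 (ndR k a b)) = 1 := by
  simp [o2, levN, ndR, hb0]

theorem o2_levN_F {o : ℕ → Ordinal.{0}} {b0 : ℕ} (hb0 : o b0 = 0) (n : ℕ) :
    o2 o (levN b0 (ndF n)) = 1 := by
  simp [o2, levN, ndF, hb0]

theorem upper (PK : FieldPres K) (PG : GroupPres G) {o : ℕ → Ordinal.{0}} (ho : IsNotation o)
    {b0 : ℕ} (hb0 : o b0 = 0) (c : Nd) (R : HahnSeries G K → Prop)
    (hR : ∀ s, R s ↔ VN PG.e o s.support c) :
    SigmaRel (rep PK PG) (o2 o (levN b0 c)) R := by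
  obtain ⟨lo, hlo, hlo2⟩ := exists_bool ho.lt
  obtain ⟨lg, hlg, hlg2⟩ := exists_bool PG.lt
  set z0 := PK.e.symm 0 with hz0
  have hf : ∀ (s : HahnSeries G K) n, rep PK PG s n ≠ z0 ↔ PG.e n ∈ s.support := by
    intro s n
    rw [rep, hz0, ne_eq, PK.e.symm.injective.eq_iff, HahnSeries.mem_support]
  refine sigmaRel_of_nodes ho.o2 (levN b0) (childN lo lg z0 b0)
    (fun c s => VN PG.e o s.support c) (levN_comp b0) (childN_comp hlo hlg z0 b0) ?_ ?_ ?_ R c hR
  · -- strings only at positive levels
    rintro (p | (p | (p | p))) m σ h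
    · have := o2_levN_R hb0 p.1 p.2.1 p.2.2
      rw [show levN b0 (Sum.inl p) = levN b0 (ndR p.1 p.2.1 p.2.2) from rfl, this]
      exact zero_lt_one
    · exfalso
      change chM lo b0 p m = _ at h
      simp only [chM, Option.bind_eq_some_iff] at h
      obtain ⟨ci, _, x, _, y, _, h4⟩ := h
      rcases ht : tM lo b0 p.1 ci m.unpair.2.unpair.1 m.unpair.2.unpair.2 with _ | _
      · rw [ht] at h4; simp at h4
      · rw [ht] at h4; simp at h4
    · exfalso
      change chS p m = _ at h
      simp only [chS, Option.bind_eq_some_iff] at h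
      obtain ⟨ts, _, h⟩ := h
      rcases ht : decide (ts.length + 1 = p.2.1.length) with _ | _
      · rw [ht] at h; simp at h
      · rw [ht] at h; simp at h
    · have := o2_levN_F hb0 p
      rw [show levN b0 (Sum.inr (Sum.inr (Sum.inr p))) = levN b0 (ndF p) from rfl, this]
      exact zero_lt_one
  · -- children have smaller levels
    rintro (p | (p | (p | p))) m d h
    · exfalso
      change chR lg z0 p m = _ at h
      simp only [chR, Option.bind_eq_some_iff] at h
      obtain ⟨τ, _, h⟩ := h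
      rcases ht : tR lg z0 p τ with _ | _
      · rw [ht] at h; simp at h
      · rw [ht] at h; simp at h
    · change chM lo b0 p m = _ at h
      simp only [chM, Option.bind_eq_some_iff] at h
      obtain ⟨ci, _, x, _, y, _, h4⟩ := h
      rcases ht : tM lo b0 p.1 ci m.unpair.2.unpair.1 m.unpair.2.unpair.2 with _ | _
      · rw [ht] at h4; simp at h4
      · rw [ht] at h4
        simp only [cond_true, Option.some.injEq, Sum.inr.injEq] at h4
        rw [tM_iff hlo2 hb0] at ht
        rw [← h4, show levN b0 (Sum.inr (Sum.inl p)) = levN b0 (ndM p.1 p.2.1 p.2.2) from rfl,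
          o2_levN_M]
        by_cases h0 : o m.unpair.2.unpair.1 = 0
        · rw [Qn_zero hlo2 hb0 h0, o2_levN_R hb0]
          have h1 : (0 : Ordinal.{0}) < o p.1 := by rw [← h0]; exact ht.1
          have := two_mul_add_lt (i := 1) (j := 0) (by norm_num) h1
          simpa using this
        · rw [Qn_pos hlo2 hb0 h0, o2_levN_S]
          have := two_mul_add_lt (i := 1) (j := 0) (by norm_num) ht.1
          simpa using this
    · change chS p m = _ at h
      simp only [chS, Option.bind_eq_some_iff] at h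
      obtain ⟨ts, _, h⟩ := h
      rcases ht : decide (ts.length + 1 = p.2.1.length) with _ | _
      · rw [ht] at h; simp at h
      · rw [ht] at h
        simp only [cond_true, Option.some.injEq, Sum.inr.injEq] at h
        rw [← h, show levN b0 (Sum.inr (Sum.inr (Sum.inl p))) =
          levN b0 (ndS p.1 p.2.1 p.2.2.1 p.2.2.2) from rfl, o2_levN_S, o2_levN_M]
        exact lt_add_one _
    · exfalso
      change chF z0 p m = _ at h
      simp only [chF, Option.bind_eq_some_iff] at h
      obtain ⟨τ, _, h⟩ := h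
      rcases ht : decide (p ≤ (τ.filter fun a => decide (a ≠ z0)).length) with _ | _
      · rw [ht] at h; simp at h
      · rw [ht] at h; simp at h
  · -- evaluation
    have hT : ∀ s : HahnSeries G K, s.support.IsWF := fun s => s.isWF_support
    rintro (p | (p | (p | p))) s
    · change (∃ n, p.1 ≤ n ∧ PG.e n ∈ s.support ∩ Iv PG.e p.2.1 p.2.2) ↔ ∃ m,
        (∃ σ : List ℕ, chR lg z0 p m = some (Sum.inl σ) ∧ _) ∨
          ∃ d, chR lg z0 p m = some (Sum.inr d) ∧ _
      rw [eval_R hlg2 (hf s) p]
      refine exists_congr fun m => ?_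
      constructor
      · exact Or.inl
      · rintro (h | ⟨d, h, _⟩)
        · exact h
        · exfalso
          simp only [chR, Option.bind_eq_some_iff] at h
          obtain ⟨τ, _, h⟩ := h
          rcases ht : tR lg z0 p τ with _ | _
          · rw [ht] at h; simp at h
          · rw [ht] at h; simp at h
    · change VM PG.e o s.support p.1 p.2.1 p.2.2 ↔ ∃ m,
        (∃ σ : List ℕ, chM lo b0 p m = some (Sum.inl σ) ∧ _) ∨
          ∃ d, chM lo b0 p m = some (Sum.inr d) ∧ _
      rw [eval_M hlo2 hb0 (hT s) ho.init]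
      refine exists_congr fun m => ?_
      constructor
      · exact Or.inr
      · rintro (⟨σ, h, _⟩ | h)
        · exfalso
          simp only [chM, Option.bind_eq_some_iff] at h
          obtain ⟨ci, _, x, _, y, _, h4⟩ := h
          rcases ht : tM lo b0 p.1 ci m.unpair.2.unpair.1 m.unpair.2.unpair.2 with _ | _
          · rw [ht] at h4; simp at h4
          · rw [ht] at h4; simp at h4
        · exact h
    · change (∃ ts : List ℕ, ts.length + 1 = p.2.1.length ∧
        ¬ VM PG.e o s.support p.1 p.2.1 (cuts p.2.2.1 ts p.2.2.2)) ↔ ∃ m,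
        (∃ σ : List ℕ, chS p m = some (Sum.inl σ) ∧ _) ∨
          ∃ d, chS p m = some (Sum.inr d) ∧ _
      rw [eval_S]
      refine exists_congr fun m => ?_
      constructor
      · exact Or.inr
      · rintro (⟨σ, h, _⟩ | h)
        · exfalso
          simp only [chS, Option.bind_eq_some_iff] at h
          obtain ⟨ts, _, h⟩ := h
          rcases ht : decide (ts.length + 1 = p.2.1.length) with _ | _
          · rw [ht] at h; simp at h
          · rw [ht] at h; simp at h
        · exact h
    · change (p : Ordinal.{0}) ≤ otp s.support ↔ ∃ m,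
        (∃ σ : List ℕ, chF z0 p m = some (Sum.inl σ) ∧ _) ∨
          ∃ d, chF z0 p m = some (Sum.inr d) ∧ _
      rw [eval_F (hf s) (hT s)]
      refine exists_congr fun m => ?_
      constructor
      · exact Or.inl
      · rintro (h | ⟨d, h, _⟩)
        · exact h
        · exfalso
          simp only [chF, Option.bind_eq_some_iff] at h
          obtain ⟨τ, _, h⟩ := h
          rcases ht : decide (p ≤ (τ.filter fun a => decide (a ≠ z0)).length) with _ | _
          · rw [ht] at h; simp at h
          · rw [ht] at h; simp at h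

theorem Iv_zero (e : ℕ ≃ G) : Iv e 0 0 = Set.univ := by
  ext g
  simp [Iv]

theorem exists_zero {o : ℕ → Ordinal.{0}} (ho : IsNotation o) : ∃ b0, o b0 = 0 := by
  rcases eq_or_ne (o 0) 0 with h | h
  · exact ⟨0, h⟩
  · exact ho.init 0 0 (pos_iff_ne_zero.2 h)

theorem upper_pi (PK : FieldPres K) (PG : GroupPres G) {o : ℕ → Ordinal.{0}} (ho : IsNotation o)
    (c : ℕ) (hc : o c ≠ 0) :
    PiRel (rep PK PG) (2 * o c) fun s => ω ^ o c ≤ length s := by
  obtain ⟨b0, hb0⟩ := exists_zero ho
  rw [← o2_levN_M o b0 c [c] [0, 0]]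
  refine upper PK PG ho hb0 _ _ fun s => ?_
  change ¬ (ω ^ o c ≤ length s) ↔ VM PG.e o s.support c [c] [0, 0]
  rw [length_eq]
  constructor
  · intro h
    refine ⟨pos_iff_ne_zero.2 hc, 0, c, 0, 0, rfl, rfl, rfl, ?_⟩
    rwa [min_self, Iv_zero, inter_univ]
  · rintro ⟨_, i, ci, x, y, h1, h2, h3, h4⟩
    have hi : i = 0 := by
      by_contra hi
      rw [List.getElem?_eq_none (by simp; omega)] at h1
      exact absurd h1 (by simp)
    subst hi
    simp only [List.getElem?_cons_zero, Option.some.injEq, zero_add,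
      List.getElem?_cons_succ] at h1 h2 h3
    subst h1; subst h2; subst h3
    rwa [min_self, Iv_zero, inter_univ] at h4

/-- Cantor normal form, as a list of exponents. -/
theorem exists_exponents (β : Ordinal.{0}) : ∀ α : Ordinal.{0}, α ≠ 0 → α < ω ^ (β + 1) →
    ∃ cs : List Ordinal.{0}, cs ≠ [] ∧ (∀ c ∈ cs, c ≤ β) ∧ (cs.map (ω ^ ·)).sum = α := by
  intro α
  induction α using WellFoundedLT.induction with
  | ind α ih =>
    intro h0 hlt
    have hlog : log ω α ≤ β := by
      have h1 : ω ^ log ω α ≤ α := opow_log_le_self _ h0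
      have h2 := (opow_lt_opow_iff_right one_lt_omega0).1 (lt_of_le_of_lt h1 hlt)
      exact Order.lt_add_one_iff.1 h2
    have hsub : ω ^ log ω α + (α - ω ^ log ω α) = α :=
      Ordinal.add_sub_cancel_of_le (opow_log_le_self _ h0)
    by_cases h1 : α - ω ^ log ω α = 0
    · refine ⟨[log ω α], by simp, ?_, ?_⟩
      · intro c hc
        rw [List.mem_singleton.1 hc]; exact hlog
      · rw [h1, add_zero] at hsub
        simpa using hsub
    · have hlt' := sub_omega0_opow_log_lt h0
      obtain ⟨cs, hne, hcs, hsum⟩ := ih _ hlt' h1 (hlt'.trans hlt)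
      refine ⟨log ω α :: cs, by simp, ?_, ?_⟩
      · intro c hc
        rcases List.mem_cons.1 hc with rfl | hc
        · exact hlog
        · exact hcs c hc
      · rw [List.map_cons, List.sum_cons, hsum]
        exact hsub

theorem exists_codes (o : ℕ → Ordinal.{0}) : ∀ cs : List Ordinal.{0},
    (∀ c ∈ cs, ∃ n, o n = c) → ∃ l : List ℕ, l.map o = cs
  | [], _ => ⟨[], rfl⟩
  | c :: cs, h => by
    obtain ⟨n, hn⟩ := h c (by simp)
    obtain ⟨l, hl⟩ := exists_codes o cs fun d hd => h d (by simp [hd])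
    exact ⟨n :: l, by simp [hn, hl]⟩

theorem upper_sigma (PK : FieldPres K) (PG : GroupPres G) {o : ℕ → Ordinal.{0}}
    (ho : IsNotation o) (c : ℕ) (α : Ordinal.{0}) (h0 : α ≠ 0) (hα : α < ω ^ (o c + 1)) :
    SigmaRel (rep PK PG) (2 * o c + 1) fun s => α ≤ length s := by
  obtain ⟨b0, hb0⟩ := exists_zero ho
  by_cases hc : o c = 0
  · rw [hc, zero_add, opow_one] at hα
    obtain ⟨n, rfl⟩ := lt_omega0.1 hα
    rw [hc, mul_zero, zero_add, ← o2_levN_F hb0 n]
    refine upper PK PG ho hb0 _ _ fun s => ?_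
    rw [length_eq]
    exact Iff.rfl
  · obtain ⟨cs, hne, hcs, hsum⟩ := exists_exponents (o c) α h0 hα
    obtain ⟨l, rfl⟩ := exists_codes o cs fun d hd => by
      rcases lt_or_eq_of_le (hcs d hd) with h | h
      · exact ho.init c d h
      · exact ⟨c, h.symm⟩
    rw [← o2_levN_S o b0 c l 0 0]
    refine upper PK PG ho hb0 _ _ fun s => ?_
    rw [VN_S s.isWF_support hc (by rintro rfl; exact hne rfl)
      (fun ci hci => hcs _ (List.mem_map_of_mem hci)), hsum, length_eq, Iv_zero, inter_univ]

end Pool.Agent.H31.Hahn
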