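import Mathlib

/-! The (boldface) Borel hierarchy on Baire space, and its non-collapse at countable levels. -/

namespace Pool.Agent.H31.Hahn

open Set Ordinal

/-- Baire space. -/
abbrev Bai := ℕ → ℕ

/-- Boldface `Σ⁰_γ` subsets of Baire space. -/
inductive BS : Ordinal.{0} → Set Bai → Prop
  | clopen (γ : Ordinal.{0}) (A : Set Bai) : 1 ≤ γ → IsClopen A → BS γ A
  | compl (γ δ : Ordinal.{0}) (A : Set Bai) : δ < γ → BS δ A → BS γ Aᶜ
  | union (γ : Ordinal.{0}) (f : ℕ → Set Bai) : (∀ n, BS γ (f n)) → BS γ (⋃ n, f n)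

namespace BS

theorem one_le {γ : Ordinal.{0}} {A : Set Bai} (h : BS γ A) : 1 ≤ γ := by
  induction h with
  | clopen γ A h _ => exact h
  | compl γ δ A h _ _ => exact Order.one_le_iff_pos.2 (lt_of_le_of_lt (zero_le) h)
  | union γ f _ ih => exact ih 0

theorem mono {γ γ' : Ordinal.{0}} {A : Set Bai} (h : BS γ A) (hγ : γ ≤ γ') : BS γ' A := by
  induction h with
  | clopen γ A h hA => exact BS.clopen _ _ (h.trans hγ) hA
  | compl γ δ A h hA _ => exact BS.compl _ δ _ (lt_of_lt_of_le h hγ) hA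
  | union γ f _ ih => exact BS.union _ _ fun n => ih n hγ

theorem preimage {γ : Ordinal.{0}} {A : Set Bai} (h : BS γ A) {f : Bai → Bai}
    (hf : Continuous f) : BS γ (f ⁻¹' A) := by
  induction h with
  | clopen γ A h hA => exact BS.clopen _ _ h (hA.preimage hf)
  | compl γ δ A h _ ih => rw [preimage_compl]; exact BS.compl _ δ _ h ih
  | union γ f _ ih => rw [preimage_iUnion]; exact BS.union _ _ ih

theorem iUnion {ι : Type*} [Countable ι] {γ : Ordinal.{0}} (hγ : 1 ≤ γ) {f : ι → Set Bai}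
    (h : ∀ i, BS γ (f i)) : BS γ (⋃ i, f i) := by
  have := Encodable.ofCountable ι
  rw [← Encodable.iUnion_decode₂]
  refine BS.union _ _ fun n => ?_
  exact Encodable.iUnion_decode₂_cases (BS.clopen _ _ hγ isClopen_empty) h

theorem union2 {γ : Ordinal.{0}} {A B : Set Bai} (hA : BS γ A) (hB : BS γ B) :
    BS γ (A ∪ B) := by
  rw [union_eq_iUnion]
  exact iUnion hA.one_le fun b => by cases b <;> assumption

theorem inter_clopen {γ : Ordinal.{0}} {A B : Set Bai} (hA : IsClopen A) (hB : BS γ B) :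
    BS γ (A ∩ B) := by
  induction hB with
  | clopen γ B h hB => exact BS.clopen _ _ h (hA.inter hB)
  | compl γ δ B h hB _ =>
    have : A ∩ Bᶜ = (Aᶜ ∪ B)ᶜ := by rw [compl_union, compl_compl]
    rw [this]
    exact BS.compl _ δ _ h (union2 (BS.clopen _ _ hB.one_le hA.compl) hB)
  | union γ f _ ih => rw [inter_iUnion]; exact BS.union _ _ ih

theorem inter_compl {γ δ : Ordinal.{0}} {A B : Set Bai} (hδ : δ < γ) (hA : BS δ A) (hB : BS γ B) :
    BS γ (Aᶜ ∩ B) := by
  induction hB with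
  | clopen γ B h hB => rw [inter_comm]; exact inter_clopen hB (BS.compl _ δ _ hδ hA)
  | compl γ δ' B h hB _ =>
    rw [← compl_union]
    exact BS.compl _ (max δ δ') _ (max_lt hδ h)
      (union2 (hA.mono (le_max_left _ _)) (hB.mono (le_max_right _ _)))
  | union γ f _ ih => rw [inter_iUnion]; exact BS.union _ _ fun n => ih n hδ

theorem inter {γ : Ordinal.{0}} {A B : Set Bai} (hA : BS γ A) (hB : BS γ B) :
    BS γ (A ∩ B) := by
  induction hA with
  | clopen γ A h hA => exact inter_clopen hA hB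
  | compl γ δ A h hA _ => exact inter_compl h hA hB
  | union γ f _ ih => rw [iUnion_inter]; exact BS.union _ _ fun n => ih n hB

end BS

/-- Clopen, or `Π⁰_δ` for some `δ < γ`. -/
def Low (γ : Ordinal.{0}) (B : Set Bai) : Prop :=
  (1 ≤ γ ∧ IsClopen B) ∨ ∃ δ < γ, BS δ Bᶜ

theorem Low.one_le {γ : Ordinal.{0}} {B : Set Bai} (h : Low γ B) : 1 ≤ γ := by
  rcases h with h | ⟨δ, hδ, _⟩
  · exact h.1
  · exact Order.one_le_iff_pos.2 (lt_of_le_of_lt (zero_le) hδ)

theorem Low.mono {γ γ' : Ordinal.{0}} {B : Set Bai} (h : Low γ B) (hγ : γ ≤ γ') : Low γ' B := by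
  rcases h with h | ⟨δ, hδ, h⟩
  · exact Or.inl ⟨h.1.trans hγ, h.2⟩
  · exact Or.inr ⟨δ, lt_of_lt_of_le hδ hγ, h⟩

theorem Low.bs {γ : Ordinal.{0}} {B : Set Bai} (h : Low γ B) : BS γ B := by
  rcases h with h | ⟨δ, hδ, h⟩
  · exact BS.clopen _ _ h.1 h.2
  · rw [← compl_compl B]; exact BS.compl _ δ _ hδ h

theorem Low.inter {γ : Ordinal.{0}} {A B : Set Bai} (hA : Low γ A) (hB : Low γ B) :
    Low γ (A ∩ B) := by
  rcases hA with hA | ⟨δ, hδ, hA⟩ <;> rcases hB with hB | ⟨ε, hε, hB⟩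
  · exact Or.inl ⟨hA.1, hA.2.inter hB.2⟩
  · refine Or.inr ⟨ε, hε, ?_⟩
    rw [compl_inter]
    exact BS.union2 (BS.clopen _ _ hB.one_le hA.2.compl) hB
  · refine Or.inr ⟨δ, hδ, ?_⟩
    rw [compl_inter]
    exact BS.union2 hA (BS.clopen _ _ hA.one_le hB.2.compl)
  · refine Or.inr ⟨max δ ε, max_lt hδ hε, ?_⟩
    rw [compl_inter]
    exact BS.union2 (hA.mono (le_max_left _ _)) (hB.mono (le_max_right _ _))

/-- Normal form: a `Σ⁰_γ` set is a countable union of clopen or lower `Π` sets. -/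
theorem BS.normal {γ : Ordinal.{0}} {A : Set Bai} (h : BS γ A) :
    ∃ f : ℕ → Set Bai, A = ⋃ n, f n ∧ ∀ n, Low γ (f n) := by
  induction h with
  | clopen γ A h hA => exact ⟨fun _ => A, (iUnion_const A).symm, fun _ => Or.inl ⟨h, hA⟩⟩
  | compl γ δ A h hA _ =>
    exact ⟨fun _ => Aᶜ, (iUnion_const Aᶜ).symm, fun _ => Or.inr ⟨δ, h, by rwa [compl_compl]⟩⟩
  | union γ f _ ih =>
    choose g hg1 hg2 using ih
    refine ⟨fun n => g n.unpair.1 n.unpair.2, ?_, fun n => hg2 _ _⟩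
    ext x
    simp only [hg1, mem_iUnion]
    constructor
    · rintro ⟨i, j, h⟩
      exact ⟨Nat.pair i j, by simpa using h⟩
    · rintro ⟨n, h⟩
      exact ⟨_, _, h⟩

/-- Disjoint normal form. -/
def DS (γ : Ordinal.{0}) (A : Set Bai) : Prop :=
  ∃ f : ℕ → Set Bai, Pairwise (Function.onFun Disjoint f) ∧ A = ⋃ n, f n ∧ ∀ n, Low γ (f n)

theorem DS.mono {γ γ' : Ordinal.{0}} {A : Set Bai} (h : DS γ A) (hγ : γ ≤ γ') : DS γ' A := by
  obtain ⟨f, hf, hA, hl⟩ := h
  exact ⟨f, hf, hA, fun n => (hl n).mono hγ⟩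

theorem DS.one_le {γ : Ordinal.{0}} {A : Set Bai} (h : DS γ A) : 1 ≤ γ := by
  obtain ⟨f, hf, hA, hl⟩ := h
  exact (hl 0).one_le

theorem DS.of_countable {ι : Type} [Countable ι] {γ : Ordinal.{0}} (hγ : 1 ≤ γ)
    {f : ι → Set Bai} (hd : Pairwise (Function.onFun Disjoint f)) (h : ∀ i, Low γ (f i)) :
    DS γ (⋃ i, f i) := by
  have := Encodable.ofCountable ι
  refine ⟨fun n => ⋃ b ∈ Encodable.decode₂ ι n, f b, Encodable.iUnion_decode₂_disjoint_on hd,
    (Encodable.iUnion_decode₂ f).symm, fun n => ?_⟩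
  exact Encodable.iUnion_decode₂_cases (C := Low γ) (Or.inl ⟨hγ, isClopen_empty⟩) h

theorem DS.iUnion {ι : Type} [Countable ι] {γ : Ordinal.{0}} (hγ : 1 ≤ γ)
    {f : ι → Set Bai} (hd : Pairwise (Function.onFun Disjoint f)) (h : ∀ i, DS γ (f i)) :
    DS γ (⋃ i, f i) := by
  choose g hg1 hg2 hg3 using h
  have he : (⋃ i, f i) = ⋃ p : ι × ℕ, g p.1 p.2 := by
    ext x
    simp only [hg2, mem_iUnion, Prod.exists]
  rw [he]
  refine DS.of_countable hγ ?_ fun p => hg3 _ _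
  rintro ⟨i, n⟩ ⟨j, m⟩ hne
  by_cases hij : i = j
  · subst hij
    exact hg1 i (fun h => hne (by rw [show n = m from h]))
  · have h1 : g i n ⊆ f i := by rw [hg2 i]; exact subset_iUnion _ n
    have h2 : g j m ⊆ f j := by rw [hg2 j]; exact subset_iUnion _ m
    exact (hd hij).mono h1 h2

theorem DS.of_low {γ : Ordinal.{0}} {A : Set Bai} (h : Low γ A) : DS γ A := by
  have := DS.of_countable (ι := Unit) (f := fun _ => A) h.one_le
    (fun a b hab => absurd rfl hab) (fun _ => h)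
  rwa [iUnion_const] at this

theorem DS.inter {γ : Ordinal.{0}} {A B : Set Bai} (hA : DS γ A) (hB : DS γ B) :
    DS γ (A ∩ B) := by
  have h1 := hA.one_le
  obtain ⟨f, hf1, hf2, hf3⟩ := hA
  obtain ⟨g, hg1, hg2, hg3⟩ := hB
  have he : A ∩ B = ⋃ p : ℕ × ℕ, f p.1 ∩ g p.2 := by
    ext x
    simp only [hf2, hg2, mem_inter_iff, mem_iUnion, Prod.exists]
    constructor
    · rintro ⟨⟨i, hi⟩, ⟨j, hj⟩⟩
      exact ⟨i, j, hi, hj⟩
    · rintro ⟨i, j, hi, hj⟩
      exact ⟨⟨i, hi⟩, ⟨j, hj⟩⟩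
  rw [he]
  refine DS.of_countable h1 ?_ fun p => (hf3 _).inter (hg3 _)
  rintro ⟨i, n⟩ ⟨j, m⟩ hne
  by_cases hij : i = j
  · subst hij
    exact (hg1 (fun h => hne (by rw [h]) : n ≠ m)).mono inter_subset_right inter_subset_right
  · exact (hf1 hij).mono inter_subset_left inter_subset_left

theorem DS.biInter {γ : Ordinal.{0}} {f : ℕ → Set Bai} (hγ : 1 ≤ γ)
    (h : ∀ n, DS γ (f n)) (k : ℕ) : DS γ (⋂ j ∈ Finset.range k, f j) := by
  induction k with
  | zero =>
    have : (⋂ j ∈ Finset.range 0, f j) = Set.univ := by simp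
    rw [this]
    exact DS.of_low (Or.inl ⟨hγ, isClopen_univ⟩)
  | succ k ih =>
    rw [Finset.range_add_one, Finset.set_biInter_insert]
    exact (h k).inter ih

theorem BS.disjoint_normal (γ : Ordinal.{0}) : ∀ A : Set Bai, BS γ A → DS γ A := by
  induction γ using WellFoundedLT.induction with
  | ind γ IH =>
    intro A hA
    have h1 := hA.one_le
    obtain ⟨f, hf, hl⟩ := hA.normal
    have hc : ∀ n, DS γ (f n)ᶜ := by
      intro n
      rcases hl n with h | ⟨δ, hδ, h⟩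
      · exact DS.of_low (Or.inl ⟨h1, h.2.compl⟩)
      · exact (IH δ hδ _ h).mono hδ.le
    have he : A = ⋃ k, (f k ∩ ⋂ j ∈ Finset.range k, (f j)ᶜ) := by
      rw [hf]
      ext x
      simp only [mem_iUnion, mem_inter_iff, mem_iInter, Finset.mem_range, mem_compl_iff]
      constructor
      · intro h
        classical
        exact ⟨Nat.find h, Nat.find_spec h, fun j hj => Nat.find_min h hj⟩
      · rintro ⟨k, hk, _⟩
        exact ⟨k, hk⟩
    rw [he]
    refine DS.iUnion h1 ?_ fun k => (DS.of_low (hl k)).inter (DS.biInter h1 hc k)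
    have key : ∀ i j, i < j → Disjoint (f i ∩ ⋂ l ∈ Finset.range i, (f l)ᶜ)
        (f j ∩ ⋂ l ∈ Finset.range j, (f l)ᶜ) := by
      intro i j hij
      rw [Set.disjoint_left]
      rintro x ⟨hx, _⟩ ⟨_, hx'⟩
      simp only [mem_iInter, Finset.mem_range, mem_compl_iff] at hx'
      exact hx' i hij hx
    intro i j hij
    rcases lt_or_gt_of_ne hij with h | h
    · exact key i j h
    · exact (key j i h).symm

/-! ### Cylinders -/

/-- The sequences extending `σ`. -/
def Cyl (σ : List ℕ) : Set Bai := {x | ∀ i (h : i < σ.length), x i = σ[i]}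

theorem isClopen_eval (i a : ℕ) : IsClopen {x : Bai | x i = a} := by
  have : {x : Bai | x i = a} = (fun x : Bai => x i) ⁻¹' {a} := rfl
  rw [this]
  exact (isClopen_discrete _).preimage (continuous_apply i)

theorem isClopen_cyl (σ : List ℕ) : IsClopen (Cyl σ) := by
  have : Cyl σ = ⋂ i : Fin σ.length, {x : Bai | x i = σ[i]} := by
    ext x
    simp only [Cyl, mem_ofPred_eq, mem_iInter]
    exact ⟨fun h i => h i.1 i.2, fun h i hi => h ⟨i, hi⟩⟩
  rw [this]
  exact isClopen_iInter_of_finite fun i => isClopen_eval _ _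

theorem exists_cyl {A : Set Bai} (hA : IsOpen A) {x : Bai} (hx : x ∈ A) :
    ∃ σ, x ∈ Cyl σ ∧ Cyl σ ⊆ A := by
  obtain ⟨v, ⟨y, n, rfl⟩, hxv, hv⟩ :=
    (PiNat.isTopologicalBasis_cylinders (fun _ => ℕ)).exists_subset_of_mem_open hx hA
  refine ⟨List.ofFn (fun i : Fin n => x i), ?_, ?_⟩
  · intro i hi
    simp
  · intro z hz
    apply hv
    rw [PiNat.mem_cylinder_iff] at hxv ⊢
    intro i hi
    rw [← hxv i hi]
    have := hz i (by simpa using hi)
    simpa using this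

theorem open_eq_iUnion_cyl {A : Set Bai} (hA : IsOpen A) :
    A = ⋃ σ : {σ : List ℕ // Cyl σ ⊆ A}, Cyl σ.1 := by
  ext x
  simp only [mem_iUnion]
  constructor
  · intro hx
    obtain ⟨σ, h1, h2⟩ := exists_cyl hA hx
    exact ⟨⟨σ, h2⟩, h1⟩
  · rintro ⟨σ, h⟩
    exact σ.2 h

/-- Empty, a cylinder, or a `Π⁰_δ` set with `1 ≤ δ < γ`. -/
def Low' (γ : Ordinal.{0}) (B : Set Bai) : Prop :=
  B = ∅ ∨ (∃ σ, B = Cyl σ) ∨ ∃ δ < γ, BS δ Bᶜ

theorem BS.normal' {γ : Ordinal.{0}} {A : Set Bai} (h : BS γ A) :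
    ∃ f : ℕ → Set Bai, A = ⋃ n, f n ∧ ∀ n, Low' γ (f n) := by
  obtain ⟨f, hf, hl⟩ := h.normal
  have key : ∀ n, ∃ g : ℕ → Set Bai, f n = ⋃ m, g m ∧ ∀ m, Low' γ (g m) := by
    intro n
    rcases hl n with h | ⟨δ, hδ, h⟩
    · have := Encodable.ofCountable {σ : List ℕ // Cyl σ ⊆ f n}
      refine ⟨fun m => ⋃ b ∈ Encodable.decode₂ {σ : List ℕ // Cyl σ ⊆ f n} m, Cyl b.1, ?_, ?_⟩
      · rw [Encodable.iUnion_decode₂]
        exact open_eq_iUnion_cyl h.2.isOpen
      · intro m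
        exact Encodable.iUnion_decode₂_cases (C := Low' γ) (Or.inl rfl)
          (fun b => Or.inr (Or.inl ⟨_, rfl⟩))
    · exact ⟨fun _ => f n, (iUnion_const _).symm, fun _ => Or.inr (Or.inr ⟨δ, hδ, h⟩)⟩
  choose g hg1 hg2 using key
  refine ⟨fun n => g n.unpair.1 n.unpair.2, ?_, fun n => hg2 _ _⟩
  rw [hf]
  ext x
  simp only [hg1, mem_iUnion]
  constructor
  · rintro ⟨i, j, h⟩
    exact ⟨Nat.pair i j, by simpa using h⟩
  · rintro ⟨n, h⟩
    exact ⟨_, _, h⟩

/-! ### Universal sets -/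

/-- `U` is universal for `Σ⁰_γ`. -/
def Univ (γ : Ordinal.{0}) (U : Set (Bai × Bai)) : Prop :=
  (∀ f g : Bai → Bai, Continuous f → Continuous g → BS γ {x | (f x, g x) ∈ U}) ∧
    ∀ B, BS γ B → ∃ y, B = {x | (y, x) ∈ U}

theorem exists_univ (γ : Ordinal.{0}) (h1 : 1 ≤ γ) (hc : (Iio γ).Countable) :
    ∃ U, Univ γ U := by
  induction γ using WellFoundedLT.induction with
  | ind γ IH =>
    have IH' : ∀ δ : Ordinal.{0}, ∃ U, (1 ≤ δ ∧ δ < γ) → Univ δ U := by
      intro δ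
      by_cases h : 1 ≤ δ ∧ δ < γ
      · obtain ⟨U, hU⟩ := IH δ h.2 h.1 (hc.mono (Iio_subset_Iio h.2.le))
        exact ⟨U, fun _ => hU⟩
      · exact ⟨∅, fun h' => absurd h' h⟩
    choose W hW using IH'
    obtain ⟨θ, hθ⟩ : ∃ θ : ℕ → Ordinal.{0}, Iio γ ⊆ range θ := by
      rcases (Iio γ).eq_empty_or_nonempty with he | hne
      · exact ⟨fun _ => 0, by rw [he]; exact empty_subset _⟩
      · obtain ⟨θ, hθ⟩ := hc.exists_eq_range hne
        exact ⟨θ, hθ.subset⟩
    classical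
    let sh : ℕ → Bai → Bai := fun n y k => y (Nat.pair n (k + 1))
    let U : Set (Bai × Bai) := {p | ∃ n, (∃ σ : List ℕ, p.1 (Nat.pair n 0) = 1 ∧
      p.1 (Nat.pair n 1) = Encodable.encode σ ∧ p.2 ∈ Cyl σ) ∨
      ∃ j, p.1 (Nat.pair n 0) = j + 2 ∧ (1 ≤ θ j ∧ θ j < γ) ∧ (sh n p.1, p.2) ∉ W (θ j)}
    have hsh : ∀ n, Continuous (sh n) := by
      intro n
      exact continuous_pi fun k => continuous_apply _
    refine ⟨U, ?_, ?_⟩
    · intro f g hf hg
      have he : {x | (f x, g x) ∈ U} = ⋃ n, ((⋃ σ : List ℕ, ({x | f x (Nat.pair n 0) = 1} ∩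
          {x | f x (Nat.pair n 1) = Encodable.encode σ} ∩ g ⁻¹' (Cyl σ))) ∪
          ⋃ j, {x | f x (Nat.pair n 0) = j + 2 ∧ (1 ≤ θ j ∧ θ j < γ) ∧
            (sh n (f x), g x) ∉ W (θ j)}) := by
        ext x
        simp only [U, mem_ofPred_eq, mem_iUnion, mem_union, mem_inter_iff, mem_preimage, and_assoc]
      rw [he]
      refine BS.iUnion h1 fun n => BS.union2 ?_ ?_
      · refine BS.iUnion h1 fun σ => BS.clopen _ _ h1 ?_
        refine (IsClopen.inter ?_ ?_).inter ((isClopen_cyl σ).preimage hg)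
        · exact (isClopen_eval _ _).preimage hf
        · exact (isClopen_eval _ _).preimage hf
      · refine BS.iUnion h1 fun j => ?_
        by_cases hj : 1 ≤ θ j ∧ θ j < γ
        · have he2 : {x | f x (Nat.pair n 0) = j + 2 ∧ (1 ≤ θ j ∧ θ j < γ) ∧
            (sh n (f x), g x) ∉ W (θ j)} = {x | f x (Nat.pair n 0) = j + 2} ∩
              {x | (sh n (f x), g x) ∈ W (θ j)}ᶜ := by
            ext x
            simp only [mem_ofPred_eq, mem_inter_iff, mem_compl_iff, hj, true_and, and_self]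
          rw [he2]
          refine BS.inter_clopen ((isClopen_eval _ _).preimage hf) ?_
          exact BS.compl _ (θ j) _ hj.2 ((hW (θ j) hj).1 _ _ ((hsh n).comp hf) hg)
        · have he2 : {x | f x (Nat.pair n 0) = j + 2 ∧ (1 ≤ θ j ∧ θ j < γ) ∧
            (sh n (f x), g x) ∉ W (θ j)} = ∅ := by
            ext x
            simp only [mem_ofPred_eq, mem_empty_iff_false, iff_false]
            rintro ⟨_, h, _⟩
            exact hj h
          rw [he2]
          exact BS.clopen _ _ h1 isClopen_empty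
    · intro B hB
      obtain ⟨f, hf, hl⟩ := hB.normal'
      have key : ∀ n, ∃ z : Bai, ∀ x, x ∈ f n ↔ ((∃ σ : List ℕ, z 0 = 1 ∧
          z 1 = Encodable.encode σ ∧ x ∈ Cyl σ) ∨
          ∃ j, z 0 = j + 2 ∧ (1 ≤ θ j ∧ θ j < γ) ∧ ((fun k => z (k + 1)), x) ∉ W (θ j)) := by
        intro n
        rcases hl n with h | ⟨σ, h⟩ | ⟨δ, hδ, h⟩
        · refine ⟨fun _ => 0, fun x => ?_⟩
          rw [h]
          simp
        · refine ⟨fun k => if k = 0 then 1 else Encodable.encode σ, fun x => ?_⟩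
          rw [h]
          simp only [↓reduceIte, true_and, one_ne_zero]
          constructor
          · intro hx
            exact Or.inl ⟨σ, rfl, hx⟩
          · rintro (⟨τ, hτ, hx⟩ | ⟨j, hj, _⟩)
            · rw [Encodable.encode_inj] at hτ
              rw [hτ]; exact hx
            · omega
        · obtain ⟨j, hj⟩ := hθ hδ
          obtain ⟨z, hz⟩ := (hW δ ⟨h.one_le, hδ⟩).2 _ h
          refine ⟨fun k => if k = 0 then j + 2 else z (k - 1), fun x => ?_⟩
          have hzx : x ∈ f n ↔ (z, x) ∉ W δ := by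
            have h3 : x ∈ (f n)ᶜ ↔ (z, x) ∈ W δ := by rw [hz]; rfl
            rw [← h3, mem_compl_iff, not_not]
          rw [hzx]
          simp only [↓reduceIte, Nat.add_eq_zero_iff, one_ne_zero, and_false,
            Nat.add_sub_cancel]
          constructor
          · intro hx
            refine Or.inr ⟨j, rfl, ?_, ?_⟩
            · rw [hj]; exact ⟨h.one_le, hδ⟩
            · rw [hj]; exact hx
          · rintro (⟨τ, hτ, _⟩ | ⟨i, hi, _, hx⟩)
            · omega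
            · have : i = j := by omega
              rw [this, hj] at hx
              exact hx
      choose z hz using key
      refine ⟨fun m => z m.unpair.1 m.unpair.2, ?_⟩
      ext x
      rw [hf]
      simp only [U, sh, mem_iUnion, mem_ofPred_eq, hz, Nat.unpair_pair]

/-- The hierarchy does not collapse at countable levels. -/
theorem exists_not_pi (γ : Ordinal.{0}) (h1 : 1 ≤ γ) (hc : (Iio γ).Countable) :
    ∃ A, BS γ A ∧ ¬ BS γ Aᶜ := by
  obtain ⟨U, hU1, hU2⟩ := exists_univ γ h1 hc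
  refine ⟨{x | (x, x) ∈ U}, hU1 id id continuous_id continuous_id, fun h => ?_⟩
  obtain ⟨y, hy⟩ := hU2 _ h
  have h3 : y ∈ {x | (x, x) ∈ U}ᶜ ↔ y ∈ {x | (y, x) ∈ U} := by rw [hy]
  simp only [mem_compl_iff, mem_ofPred_eq] at h3
  tauto

end Pool.Agent.H31.Hahn
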