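import Pool.Agent.H31.Hahn.Upper

/-! Computability of the code system. -/

namespace Pool.Agent.H31.Hahn

open Set Ordinal Encodable

theorem comp_or {α : Type*} [Primcodable α] {f g : α → Bool} (hf : Computable f)
    (hg : Computable g) : Computable fun a => f a || g a :=
  (Primrec.or.to_comp : Computable₂ or).comp hf hg

theorem comp_and {α : Type*} [Primcodable α] {f g : α → Bool} (hf : Computable f)
    (hg : Computable g) : Computable fun a => f a && g a :=
  (Primrec.and.to_comp : Computable₂ and).comp hf hg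

theorem comp_not {α : Type*} [Primcodable α] {f : α → Bool} (hf : Computable f) :
    Computable fun a => !f a :=
  (Primrec.not.to_comp : Computable not).comp hf

/-- Case distinction on nodes. -/
theorem comp_cases {α σ : Type*} [Primcodable α] [Primcodable σ] {f : α → Nd}
    {g1 : α → (ℕ × ℕ × ℕ) → σ} {g2 : α → (ℕ × List ℕ × List ℕ) → σ}
    {g3 : α → (ℕ × List ℕ × ℕ × ℕ) → σ} {g4 : α → ℕ → σ} (hf : Computable f)
    (h1 : Computable₂ g1) (h2 : Computable₂ g2) (h3 : Computable₂ g3) (h4 : Computable₂ g4)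
    {F : α → σ} (hF1 : ∀ a p, f a = Sum.inl p → F a = g1 a p)
    (hF2 : ∀ a p, f a = Sum.inr (Sum.inl p) → F a = g2 a p)
    (hF3 : ∀ a p, f a = Sum.inr (Sum.inr (Sum.inl p)) → F a = g3 a p)
    (hF4 : ∀ a p, f a = Sum.inr (Sum.inr (Sum.inr p)) → F a = g4 a p) : Computable F := by
  have k3 : Computable₂ (fun (b : (α × ((ℕ × List ℕ × List ℕ) ⊕ (ℕ × List ℕ × ℕ × ℕ) ⊕ ℕ)))
      (z : (ℕ × List ℕ × ℕ × ℕ) ⊕ ℕ) =>
        (Sum.casesOn z (fun p => g3 b.1 p) (fun n => g4 b.1 n) : σ)) := by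
    have h3' : Computable₂ (fun (c : (α × ((ℕ × List ℕ × List ℕ) ⊕ (ℕ × List ℕ × ℕ × ℕ) ⊕ ℕ)) ×
        ((ℕ × List ℕ × ℕ × ℕ) ⊕ ℕ)) p => g3 c.1.1 p) :=
      h3.comp (Computable.fst.comp (Computable.fst.comp Computable.fst)) Computable.snd
    have h4' : Computable₂ (fun (c : (α × ((ℕ × List ℕ × List ℕ) ⊕ (ℕ × List ℕ × ℕ × ℕ) ⊕ ℕ)) ×
        ((ℕ × List ℕ × ℕ × ℕ) ⊕ ℕ)) p => g4 c.1.1 p) :=
      h4.comp (Computable.fst.comp (Computable.fst.comp Computable.fst)) Computable.snd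
    exact Computable.sumCasesOn Computable.snd h3' h4'
  have k2 : Computable₂ (fun (a : α) (y : (ℕ × List ℕ × List ℕ) ⊕ (ℕ × List ℕ × ℕ × ℕ) ⊕ ℕ) =>
      (Sum.casesOn y (fun p => g2 a p)
        (fun z => (Sum.casesOn z (fun p => g3 a p) (fun n => g4 a n) : σ)) : σ)) := by
    have h2' : Computable₂ (fun (b : (α × ((ℕ × List ℕ × List ℕ) ⊕ (ℕ × List ℕ × ℕ × ℕ) ⊕ ℕ))) p =>
        g2 b.1 p) := h2.comp (Computable.fst.comp Computable.fst) Computable.snd
    exact Computable.sumCasesOn Computable.snd h2' k3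
  refine (Computable.sumCasesOn hf h1 k2).of_eq fun a => ?_
  rcases hfa : f a with p | (p | (p | p))
  · exact (hF1 a p hfa).symm
  · exact (hF2 a p hfa).symm
  · exact (hF3 a p hfa).symm
  · exact (hF4 a p hfa).symm

variable {lo lg : ℕ × ℕ → Bool} (hlo : Computable lo) (hlg : Computable lg) (z0 b0 : ℕ)

theorem levN_comp : Computable (levN b0) := by
  refine comp_cases (f := fun x : Nd => x) (g1 := fun _ _ => Nat.pair b0 1)
    (g2 := fun _ p => Nat.pair p.1 0) (g3 := fun _ p => Nat.pair p.1 1)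
    (g4 := fun _ _ => Nat.pair b0 1) Computable.id ?_ ?_ ?_ ?_ ?_ ?_ ?_ ?_
  · exact (Computable.const _).to₂
  · exact ((Primrec₂.natPair.comp (Primrec.fst.comp Primrec.snd) (Primrec.const 0)).to_comp).to₂
  · exact ((Primrec₂.natPair.comp (Primrec.fst.comp Primrec.snd) (Primrec.const 1)).to_comp).to₂
  · exact (Computable.const _).to₂
  all_goals
    intro a p h
    rw [h]
    rfl

include hlg in
theorem tR_comp : Computable (fun q : (ℕ × ℕ × ℕ) × List ℕ => tR lg z0 q.1 q.2) := by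
  have hlen : Primrec (fun q : (ℕ × ℕ × ℕ) × List ℕ => q.2.length - 1) :=
    Primrec.nat_sub.comp (Primrec.list_length.comp Primrec.snd) (Primrec.const 1)
  have ha : Primrec (fun q : (ℕ × ℕ × ℕ) × List ℕ => q.1.2.1) :=
    Primrec.fst.comp (Primrec.snd.comp Primrec.fst)
  have hb : Primrec (fun q : (ℕ × ℕ × ℕ) × List ℕ => q.1.2.2) :=
    Primrec.snd.comp (Primrec.snd.comp Primrec.fst)
  have ha1 : Primrec (fun q : (ℕ × ℕ × ℕ) × List ℕ => q.1.2.1 - 1) :=
    Primrec.nat_sub.comp ha (Primrec.const 1)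
  have hb1 : Primrec (fun q : (ℕ × ℕ × ℕ) × List ℕ => q.1.2.2 - 1) :=
    Primrec.nat_sub.comp hb (Primrec.const 1)
  have k1 : Computable (fun q : (ℕ × ℕ × ℕ) × List ℕ =>
      decide (q.2.getD (q.2.length - 1) z0 = z0)) :=
    (Primrec.eq.comp ((Primrec.list_getD z0).comp Primrec.snd hlen)
      (Primrec.const z0)).decide.to_comp
  have k2 : Computable (fun q : (ℕ × ℕ × ℕ) × List ℕ => decide (q.1.1 ≤ q.2.length - 1)) :=
    (Primrec.nat_le.comp (Primrec.fst.comp Primrec.fst) hlen).decide.to_comp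
  have k3 : Computable (fun q : (ℕ × ℕ × ℕ) × List ℕ => decide (q.1.2.1 = 0)) :=
    (Primrec.eq.comp ha (Primrec.const 0)).decide.to_comp
  have k4 : Computable (fun q : (ℕ × ℕ × ℕ) × List ℕ => (q.2.length - 1, q.1.2.1 - 1)) :=
    (hlen.pair ha1).to_comp
  have k5 : Computable (fun q : (ℕ × ℕ × ℕ) × List ℕ => decide (q.1.2.2 = 0)) :=
    (Primrec.eq.comp hb (Primrec.const 0)).decide.to_comp
  have k6 : Computable (fun q : (ℕ × ℕ × ℕ) × List ℕ => (q.2.length - 1, q.1.2.2 - 1)) :=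
    (hlen.pair hb1).to_comp
  have k7 : Computable (fun q : (ℕ × ℕ × ℕ) × List ℕ => lg (q.2.length - 1, q.1.2.1 - 1)) :=
    hlg.comp k4
  have k8 : Computable (fun q : (ℕ × ℕ × ℕ) × List ℕ => lg (q.2.length - 1, q.1.2.2 - 1)) :=
    hlg.comp k6
  exact (comp_and (comp_and (comp_not k1) k2)
    (comp_and (comp_or k3 (comp_not k7)) (comp_or k5 k8))).of_eq fun q => rfl

attribute [local irreducible] tR

theorem decL_comp : Computable (fun m : ℕ => (decode m : Option (List ℕ))) := Computable.decode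

theorem comp_bind_dec {α σ : Type*} [Primcodable α] [Primcodable σ] {f : α → ℕ}
    {g : α → List ℕ → Option σ} (hf : Computable f) (hg : Computable₂ g) :
    Computable fun a => (decode (f a) : Option (List ℕ)).bind (g a) :=
  Computable.option_bind (decL_comp.comp hf) hg

include hlg in
theorem chR_comp : Computable₂ (chR lg z0) := by
  have k1 : Computable (fun q : ((ℕ × ℕ × ℕ) × ℕ) × List ℕ => (q.1.1, q.2)) :=
    (Computable.fst.comp Computable.fst).pair Computable.snd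
  have k2 : Computable (fun q : ((ℕ × ℕ × ℕ) × ℕ) × List ℕ => tR lg z0 q.1.1 q.2) := by
    have h := Computable.comp (f := fun q : (ℕ × ℕ × ℕ) × List ℕ => tR lg z0 q.1 q.2)
      (tR_comp hlg z0) k1
    exact h
  have k3 : Computable (fun q : ((ℕ × ℕ × ℕ) × ℕ) × List ℕ =>
      (some (Sum.inl q.2) : Option (List ℕ ⊕ Nd))) :=
    Computable.option_some.comp (Computable.sumInl.comp Computable.snd)
  have k4 : Computable₂ (fun (q : (ℕ × ℕ × ℕ) × ℕ) (σ : List ℕ) =>
      (bif tR lg z0 q.1 σ then (some (Sum.inl σ) : Option (List ℕ ⊕ Nd)) else none)) :=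
    Computable.cond k2 k3 (Computable.const none)
  show Computable (fun q : (ℕ × ℕ × ℕ) × ℕ => chR lg z0 q.1 q.2)
  unfold chR
  exact comp_bind_dec Computable.snd k4

include hlo in
theorem Qn_comp : Computable (fun q : ℕ × ℕ × ℕ × ℕ => Qn lo b0 q.1 q.2.1 q.2.2.1 q.2.2.2) := by
  have hd : Primrec (fun q : ℕ × ℕ × ℕ × ℕ => q.1) := Primrec.fst
  have hk : Primrec (fun q : ℕ × ℕ × ℕ × ℕ => q.2.1) := Primrec.fst.comp Primrec.snd
  have hx : Primrec (fun q : ℕ × ℕ × ℕ × ℕ => q.2.2.1) :=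
    Primrec.fst.comp (Primrec.snd.comp Primrec.snd)
  have hy : Primrec (fun q : ℕ × ℕ × ℕ × ℕ => q.2.2.2) :=
    Primrec.snd.comp (Primrec.snd.comp Primrec.snd)
  have k1 : Computable (fun q : ℕ × ℕ × ℕ × ℕ => lo (b0, q.1)) :=
    hlo.comp ((Computable.const b0).pair hd.to_comp)
  have hl : Primrec (fun q : ℕ × ℕ × ℕ × ℕ => (List.range (q.2.1 + 1)).map fun _ => q.1) :=
    Primrec.list_map (Primrec.list_range.comp (Primrec.succ.comp hk)) (hd.comp Primrec.fst).to₂
  have k2 : Primrec (fun q : ℕ × ℕ × ℕ × ℕ =>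
      ndS q.1 ((List.range (q.2.1 + 1)).map (fun _ => q.1)) q.2.2.1 q.2.2.2) :=
    Primrec.sumInr.comp (Primrec.sumInr.comp (Primrec.sumInl.comp
      (hd.pair (hl.pair (hx.pair hy)))))
  have k3 : Primrec (fun q : ℕ × ℕ × ℕ × ℕ => ndR q.2.1 q.2.2.1 q.2.2.2) :=
    Primrec.sumInl.comp (hk.pair (hx.pair hy))
  exact (Computable.cond k1 k2.to_comp k3.to_comp).of_eq fun q => rfl

attribute [local irreducible] Qn

include hlo in
theorem tM_comp : Computable (fun q : ℕ × ℕ × ℕ × ℕ => tM lo b0 q.1 q.2.1 q.2.2.1 q.2.2.2) := by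
  have hc : Computable (fun q : ℕ × ℕ × ℕ × ℕ => q.1) := Computable.fst
  have hci : Computable (fun q : ℕ × ℕ × ℕ × ℕ => q.2.1) := Computable.fst.comp Computable.snd
  have hd : Computable (fun q : ℕ × ℕ × ℕ × ℕ => q.2.2.1) :=
    Computable.fst.comp (Computable.snd.comp Computable.snd)
  have hk : Primrec (fun q : ℕ × ℕ × ℕ × ℕ => q.2.2.2) :=
    Primrec.snd.comp (Primrec.snd.comp Primrec.snd)
  have k1 : Computable (fun q : ℕ × ℕ × ℕ × ℕ => lo (q.2.2.1, q.1)) := hlo.comp (hd.pair hc)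
  have k2 : Computable (fun q : ℕ × ℕ × ℕ × ℕ => lo (q.2.2.1, q.2.1)) := hlo.comp (hd.pair hci)
  have k3 : Computable (fun q : ℕ × ℕ × ℕ × ℕ => lo (b0, q.2.1)) :=
    hlo.comp ((Computable.const b0).pair hci)
  have k4 : Computable (fun q : ℕ × ℕ × ℕ × ℕ => lo (b0, q.2.2.1)) :=
    hlo.comp ((Computable.const b0).pair hd)
  have k5 : Computable (fun q : ℕ × ℕ × ℕ × ℕ => decide (q.2.2.2 = 0)) :=
    (Primrec.eq.comp hk (Primrec.const 0)).decide.to_comp
  exact (comp_and k1 (comp_or k2 (comp_and (comp_and (comp_not k3) (comp_not k4)) k5))).of_eq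
    fun q => rfl

attribute [local irreducible] tM

include hlo in
theorem chM_comp : Computable₂ (chM lo b0) := by
  -- context: (((p, m), ci), x), y
  have hm : Computable (fun q : (((((ℕ × List ℕ × List ℕ) × ℕ) × ℕ) × ℕ) × ℕ) =>
      q.1.1.1.2.unpair.2) :=
    Computable.snd.comp (Computable.unpair.comp (Computable.snd.comp (Computable.fst.comp
      (Computable.fst.comp Computable.fst))))
  have hd : Computable (fun q : (((((ℕ × List ℕ × List ℕ) × ℕ) × ℕ) × ℕ) × ℕ) =>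
      q.1.1.1.2.unpair.2.unpair.1) := Computable.fst.comp (Computable.unpair.comp hm)
  have hk : Computable (fun q : (((((ℕ × List ℕ × List ℕ) × ℕ) × ℕ) × ℕ) × ℕ) =>
      q.1.1.1.2.unpair.2.unpair.2) := Computable.snd.comp (Computable.unpair.comp hm)
  have hy : Computable (fun q : (((((ℕ × List ℕ × List ℕ) × ℕ) × ℕ) × ℕ) × ℕ) => q.2) :=
    Computable.snd
  have hx : Computable (fun q : (((((ℕ × List ℕ × List ℕ) × ℕ) × ℕ) × ℕ) × ℕ) => q.1.2) :=
    Computable.snd.comp Computable.fst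
  have hci : Computable (fun q : (((((ℕ × List ℕ × List ℕ) × ℕ) × ℕ) × ℕ) × ℕ) => q.1.1.2) :=
    Computable.snd.comp (Computable.fst.comp Computable.fst)
  have hc : Computable (fun q : (((((ℕ × List ℕ × List ℕ) × ℕ) × ℕ) × ℕ) × ℕ) =>
      q.1.1.1.1.1) :=
    Computable.fst.comp (Computable.fst.comp (Computable.fst.comp
      (Computable.fst.comp Computable.fst)))
  have k1 : Computable (fun q : (((((ℕ × List ℕ × List ℕ) × ℕ) × ℕ) × ℕ) × ℕ) =>
      tM lo b0 q.1.1.1.1.1 q.1.1.2 q.1.1.1.2.unpair.2.unpair.1 q.1.1.1.2.unpair.2.unpair.2) := by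
    have h0 := hc.pair (hci.pair (hd.pair hk))
    have h := Computable.comp (f := fun q : ℕ × ℕ × ℕ × ℕ => tM lo b0 q.1 q.2.1 q.2.2.1 q.2.2.2)
      (tM_comp hlo b0) h0
    exact h
  have k2 : Computable (fun q : (((((ℕ × List ℕ × List ℕ) × ℕ) × ℕ) × ℕ) × ℕ) =>
      Qn lo b0 q.1.1.1.2.unpair.2.unpair.1 q.1.1.1.2.unpair.2.unpair.2 q.1.2 q.2) := by
    have h0 := hd.pair (hk.pair (hx.pair hy))
    have h := Computable.comp (f := fun q : ℕ × ℕ × ℕ × ℕ => Qn lo b0 q.1 q.2.1 q.2.2.1 q.2.2.2)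
      (Qn_comp hlo b0) h0
    exact h
  have k3 : Computable (fun q : (((((ℕ × List ℕ × List ℕ) × ℕ) × ℕ) × ℕ) × ℕ) =>
      (some (Sum.inr (Qn lo b0 q.1.1.1.2.unpair.2.unpair.1 q.1.1.1.2.unpair.2.unpair.2 q.1.2 q.2)) :
        Option (List ℕ ⊕ Nd))) := by
    have h := Computable.option_some.comp (Computable.sumInr (α := List ℕ) |>.comp k2)
    exact h
  have k4 := Computable.cond k1 k3 (Computable.const none)
  have g1 : Computable (fun q : ((((ℕ × List ℕ × List ℕ) × ℕ) × ℕ) × ℕ) =>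
      q.1.1.1.2.2[q.1.1.2.unpair.1 + 1]?) :=
    Computable.list_getElem?.comp
      (Computable.snd.comp (Computable.snd.comp (Computable.fst.comp
        (Computable.fst.comp Computable.fst))))
      (Computable.succ.comp (Computable.fst.comp (Computable.unpair.comp (Computable.snd.comp
        (Computable.fst.comp Computable.fst)))))
  have k5 := Computable.option_bind g1 k4.to₂
  have g2 : Computable (fun q : (((ℕ × List ℕ × List ℕ) × ℕ) × ℕ) =>
      q.1.1.2.2[q.1.2.unpair.1]?) :=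
    Computable.list_getElem?.comp
      (Computable.snd.comp (Computable.snd.comp (Computable.fst.comp Computable.fst)))
      (Computable.fst.comp (Computable.unpair.comp (Computable.snd.comp Computable.fst)))
  have k6 := Computable.option_bind g2 k5.to₂
  have g3 : Computable (fun q : ((ℕ × List ℕ × List ℕ) × ℕ) => q.1.2.1[q.2.unpair.1]?) :=
    Computable.list_getElem?.comp (Computable.fst.comp (Computable.snd.comp Computable.fst))
      (Computable.fst.comp (Computable.unpair.comp Computable.snd))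
  have k7 := Computable.option_bind g3 k6.to₂
  show Computable (fun q : (ℕ × List ℕ × List ℕ) × ℕ => chM lo b0 q.1 q.2)
  unfold chM
  exact k7

theorem chS_comp : Computable₂ chS := by
  have hts : Primrec (fun q : ((ℕ × List ℕ × ℕ × ℕ) × ℕ) × List ℕ => q.2) := Primrec.snd
  have hc : Primrec (fun q : ((ℕ × List ℕ × ℕ × ℕ) × ℕ) × List ℕ => q.1.1.1) :=
    Primrec.fst.comp (Primrec.fst.comp Primrec.fst)
  have hcs : Primrec (fun q : ((ℕ × List ℕ × ℕ × ℕ) × ℕ) × List ℕ => q.1.1.2.1) :=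
    Primrec.fst.comp (Primrec.snd.comp (Primrec.fst.comp Primrec.fst))
  have ha : Primrec (fun q : ((ℕ × List ℕ × ℕ × ℕ) × ℕ) × List ℕ => q.1.1.2.2.1) :=
    Primrec.fst.comp (Primrec.snd.comp (Primrec.snd.comp (Primrec.fst.comp Primrec.fst)))
  have hb : Primrec (fun q : ((ℕ × List ℕ × ℕ × ℕ) × ℕ) × List ℕ => q.1.1.2.2.2) :=
    Primrec.snd.comp (Primrec.snd.comp (Primrec.snd.comp (Primrec.fst.comp Primrec.fst)))
  have k0 : Primrec (fun q : ((ℕ × List ℕ × ℕ × ℕ) × ℕ) × List ℕ => q.2.length + 1) :=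
    Primrec.succ.comp (Primrec.list_length.comp hts)
  have k1 : Computable (fun q : ((ℕ × List ℕ × ℕ × ℕ) × ℕ) × List ℕ =>
      decide (q.2.length + 1 = q.1.1.2.1.length)) :=
    (Primrec.eq.comp k0 (Primrec.list_length.comp hcs)).decide.to_comp
  have k2 : Primrec (fun q : ((ℕ × List ℕ × ℕ × ℕ) × ℕ) × List ℕ => q.2.map Nat.succ) :=
    Primrec.list_map hts (Primrec.succ.comp Primrec.snd).to₂
  have k3 : Primrec (fun q : ((ℕ × List ℕ × ℕ × ℕ) × ℕ) × List ℕ => [q.1.1.2.2.2]) :=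
    Primrec.list_cons.comp hb (Primrec.const [])
  have k4 : Primrec (fun q : ((ℕ × List ℕ × ℕ × ℕ) × ℕ) × List ℕ =>
      q.2.map Nat.succ ++ [q.1.1.2.2.2]) := Primrec.list_append.comp k2 k3
  have k5 : Primrec (fun q : ((ℕ × List ℕ × ℕ × ℕ) × ℕ) × List ℕ =>
      cuts q.1.1.2.2.1 q.2 q.1.1.2.2.2) := Primrec.list_cons.comp ha k4
  have k6 := hc.pair (hcs.pair k5)
  have k7 : Computable (fun q : ((ℕ × List ℕ × ℕ × ℕ) × ℕ) × List ℕ =>
      (some (Sum.inr (ndM q.1.1.1 q.1.1.2.1 (cuts q.1.1.2.2.1 q.2 q.1.1.2.2.2))) :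
        Option (List ℕ ⊕ Nd))) := by
    have h := (Primrec.option_some.comp (Primrec.sumInr (α := List ℕ) |>.comp
      (Primrec.sumInr (α := ℕ × ℕ × ℕ) |>.comp
        (Primrec.sumInl (β := (ℕ × List ℕ × ℕ × ℕ) ⊕ ℕ) |>.comp k6)))).to_comp
    exact h
  have k8 := Computable.cond k1 k7 (Computable.const none)
  have k9 := comp_bind_dec (f := fun q : (ℕ × List ℕ × ℕ × ℕ) × ℕ => q.2) Computable.snd k8.to₂
  show Computable (fun q : (ℕ × List ℕ × ℕ × ℕ) × ℕ => chS q.1 q.2)
  unfold chS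
  exact k9

theorem chF_comp : Computable₂ (chF z0) := by
  have hp : PrimrecPred (fun a : ℕ => a ≠ z0) :=
    (Primrec.eq.comp Primrec.id (Primrec.const z0)).not
  have h1 : Primrec (fun L : List ℕ => L.filter fun a => decide (a ≠ z0)) :=
    (Primrec.listFilter hp).of_eq fun L => by congr
  have h2 : Primrec (fun q : (ℕ × ℕ) × List ℕ => (q.2.filter fun a => decide (a ≠ z0)).length) :=
    Primrec.list_length.comp (h1.comp Primrec.snd)
  have k1 : Computable (fun q : (ℕ × ℕ) × List ℕ =>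
      decide (q.1.1 ≤ (q.2.filter fun a => decide (a ≠ z0)).length)) :=
    (Primrec.nat_le.comp (Primrec.fst.comp Primrec.fst) h2).decide.to_comp
  have k3 : Computable (fun q : (ℕ × ℕ) × List ℕ =>
      (some (Sum.inl q.2) : Option (List ℕ ⊕ Nd))) :=
    Computable.option_some.comp (Computable.sumInl.comp Computable.snd)
  have k4 := Computable.cond k1 k3 (Computable.const none)
  have k5 := comp_bind_dec (f := fun q : ℕ × ℕ => q.2) Computable.snd k4.to₂
  show Computable (fun q : ℕ × ℕ => chF z0 q.1 q.2)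
  unfold chF
  exact k5

attribute [local irreducible] chR chM chS chF

include hlo hlg in
theorem childN_comp : Computable₂ (childN lo lg z0 b0) := by
  have k1 : Computable₂ (fun (q : Nd × ℕ) (p : ℕ × ℕ × ℕ) => chR lg z0 p q.2) :=
    Computable₂.comp (f := chR lg z0) (chR_comp hlg z0) Computable.snd
      (Computable.snd.comp Computable.fst)
  have k2 : Computable₂ (fun (q : Nd × ℕ) (p : ℕ × List ℕ × List ℕ) => chM lo b0 p q.2) :=
    Computable₂.comp (f := chM lo b0) (chM_comp hlo b0) Computable.snd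
      (Computable.snd.comp Computable.fst)
  have k3 : Computable₂ (fun (q : Nd × ℕ) (p : ℕ × List ℕ × ℕ × ℕ) => chS p q.2) :=
    Computable₂.comp (f := chS) chS_comp Computable.snd (Computable.snd.comp Computable.fst)
  have k4 : Computable₂ (fun (q : Nd × ℕ) (n : ℕ) => chF z0 n q.2) :=
    Computable₂.comp (f := chF z0) (chF_comp z0) Computable.snd
      (Computable.snd.comp Computable.fst)
  refine comp_cases (F := fun q : Nd × ℕ => childN lo lg z0 b0 q.1 q.2) Computable.fst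
    k1 k2 k3 k4 ?_ ?_ ?_ ?_
  all_goals
    intro a p h
    rw [h]
    rfl

end Pool.Agent.H31.Hahn
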