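import Pool.Agent.H31.Hahn.Borel
import Pool.Agent.H31.Hahn.Otp

/-! Definitions: computable presentations, computable ordinals, the effective Borel hierarchy,
and lengths of Hahn series. -/

namespace Pool.Agent.H31.Hahn

open Set Ordinal

/-- A computable presentation of the field `K`: the elements are numbered by `ℕ` so that addition
and multiplication are computable. -/
structure FieldPres (K : Type) [Field K] where
  e : ℕ ≃ K
  add : Computable₂ fun a b : ℕ => e.symm (e a + e b)
  mul : Computable₂ fun a b : ℕ => e.symm (e a * e b)

/-- A computable presentation of the ordered group `G`: the elements are numbered by `ℕ` so that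
addition and the order are computable. -/
structure GroupPres (G : Type) [AddCommGroup G] [LinearOrder G] where
  e : ℕ ≃ G
  add : Computable₂ fun a b : ℕ => e.symm (e a + e b)
  lt : ComputablePred fun p : ℕ × ℕ => e p.1 < e p.2

/-- The length of a Hahn series: the order type of its support. -/
noncomputable def length {G K : Type} [LinearOrder G] [Zero K] (s : HahnSeries G K) :
    Ordinal.{0} :=
  @Ordinal.type s.support (fun a b : s.support => (a : G) < b)
    (isWellOrder_of_isWF s.isWF_support)

/-- The number-theoretic function representing the Hahn series `s`: at `n` it gives the index of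
the coefficient of `s` at the `n`-th element of `G`. -/
def rep {G K : Type} [Field K] [AddCommGroup G] [LinearOrder G] (PK : FieldPres K)
    (PG : GroupPres G) (s : HahnSeries G K) : ℕ → ℕ :=
  fun n => PK.e.symm (s.coeff (PG.e n))

/-- `o` is a system of ordinal notations: the ordinals denoted form an initial segment and
the order of notations is decidable. -/
structure IsNotation (o : ℕ → Ordinal.{0}) : Prop where
  lt : ComputablePred fun p : ℕ × ℕ => o p.1 < o p.2
  init : ∀ a, ∀ β < o a, ∃ b, o b = β

/-- A computable ordinal: one with a notation. -/
def IsComputableOrdinal (β : Ordinal.{0}) : Prop :=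
  ∃ o : ℕ → Ordinal.{0}, IsNotation o ∧ ∃ a, o a = β

/-- A computable system of Borel codes for relations on `S`, whose elements `s` are represented by
the functions `rep s`. The code `c` has level `o (lev c)`, and its `m`-th child is nothing, a
finite string `σ` (only if the level of `c` is positive), or a code `d` of smaller level. The
set `V c` coded by `c` consists of the `s` such that `rep s` extends a string `σ` among the
children of `c`, or `s` is not in `V d` for some code `d` among the children of `c`. -/
structure IsCodeSystem {S : Type} (rep : S → ℕ → ℕ) (o : ℕ → Ordinal.{0}) (lev : ℕ → ℕ)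
    (child : ℕ → ℕ → Option (List ℕ ⊕ ℕ)) (V : ℕ → S → Prop) : Prop where
  lev_comp : Computable lev
  child_comp : Computable₂ child
  basic : ∀ c m σ, child c m = some (Sum.inl σ) → 0 < o (lev c)
  lower : ∀ c m d, child c m = some (Sum.inr d) → o (lev d) < o (lev c)
  eval : ∀ c s, V c s ↔ ∃ m,
    (∃ σ : List ℕ, child c m = some (Sum.inl σ) ∧ ∀ i (h : i < σ.length), rep s i = σ[i]) ∨
      ∃ d, child c m = some (Sum.inr d) ∧ ¬ V d s

/-- The relation `R s` is `Σ⁰_γ` relative to `rep s`, uniformly in `s`. -/
def SigmaRel {S : Type} (rep : S → ℕ → ℕ) (γ : Ordinal.{0}) (R : S → Prop) : Prop :=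
  ∃ o : ℕ → Ordinal.{0}, IsNotation o ∧ ∃ lev child V, IsCodeSystem rep o lev child V ∧
    ∃ c, o (lev c) = γ ∧ ∀ s, R s ↔ V c s

/-- The relation `R s` is `Π⁰_γ` relative to `rep s`, uniformly in `s`. -/
def PiRel {S : Type} (rep : S → ℕ → ℕ) (γ : Ordinal.{0}) (R : S → Prop) : Prop :=
  SigmaRel rep γ fun s => ¬ R s

theorem length_eq {G K : Type} [LinearOrder G] [Zero K] (s : HahnSeries G K) :
    length s = otp s.support :=
  (otp_eq s.isWF_support).symm

end Pool.Agent.H31.Hahn
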