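import Pool.Agent.H31.Hahn.Borel

/-! Gates: approximating a `Π⁰_{2·γ}` set by lower level conditions. -/

namespace Pool.Agent.H31.Hahn

open Set Ordinal

/-- Clopen for `γ = 0`, boldface `Π⁰_{2·γ}` otherwise. -/
def PP (γ : Ordinal.{0}) (A : Set Bai) : Prop :=
  (γ = 0 ∧ IsClopen A) ∨ (γ ≠ 0 ∧ BS (2 * γ) Aᶜ)

theorem two_mul_pos {γ : Ordinal.{0}} (h : γ ≠ 0) : (1 : Ordinal.{0}) ≤ 2 * γ := by
  rw [Order.one_le_iff_pos]
  exact mul_pos (by norm_num) (pos_iff_ne_zero.2 h)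

theorem PP.zero {A : Set Bai} (h : PP 0 A) : IsClopen A := by
  rcases h with h | h
  · exact h.2
  · exact absurd rfl h.1

theorem PP.univ (γ : Ordinal.{0}) : PP γ Set.univ := by
  by_cases h : γ = 0
  · exact Or.inl ⟨h, isClopen_univ⟩
  · refine Or.inr ⟨h, ?_⟩
    rw [compl_univ]
    exact BS.clopen _ _ (two_mul_pos h) isClopen_empty

theorem PP.of_clopen {A : Set Bai} (h : IsClopen A) : PP 0 A := Or.inl ⟨rfl, h⟩

theorem PP.of_low {δ : Ordinal.{0}} {E : Set Bai} (h : Low (2 * δ + 1) E) : PP δ E := by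
  by_cases hδ : δ = 0
  · refine Or.inl ⟨hδ, ?_⟩
    rw [hδ, mul_zero, zero_add] at h
    rcases h with h | ⟨ε, hε, h⟩
    · exact h.2
    · exact absurd h.one_le (not_le.2 hε)
  · refine Or.inr ⟨hδ, ?_⟩
    rcases h with h | ⟨ε, hε, h⟩
    · exact BS.clopen _ _ (two_mul_pos hδ) h.2.compl
    · exact h.mono (Order.lt_add_one_iff.1 hε)

structure Gate (γ : Ordinal.{0}) (A : Set Bai) (C : ℕ → ℕ → Set (Ordinal.{0} × Set Bai)) :
    Prop where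
  fin : ∀ N m, (C N m).Finite
  lev : ∀ N m, ∀ f ∈ C N m, f.1 < γ ∧ PP f.1 f.2
  c1 : ∀ x ∈ A, ∀ N, ∃ m, ∀ f ∈ C N m, x ∈ f.2
  c2 : ∀ x N, ∃ M, ∃ ρ < γ, ∀ m, M < m → ∃ f ∈ C N m, f.1 ≤ ρ ∧ x ∉ f.2
  c3 : ∀ x ∉ A, ∃ N0, ∃ ρ < γ, ∀ N, N0 ≤ N → ∀ m, ∃ f ∈ C N m, f.1 ≤ ρ ∧ x ∉ f.2
  c4 : ∀ ρ < γ, ∃ N0, ∀ N, N0 ≤ N → ∀ m, ∃ f ∈ C N m, ρ ≤ f.1

theorem exists_gate_succ (δ : Ordinal.{0}) (A : Set Bai) (hA : PP (δ + 1) A) :
    ∃ C, Gate (δ + 1) A C := by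
  have hA' : BS (2 * (δ + 1)) Aᶜ := by
    rcases hA with h | h
    · exact absurd h.1 (add_pos_of_right zero_lt_one δ).ne'
    · exact h.2
  have h2 : (2 : Ordinal.{0}) * (δ + 1) = 2 * δ + 1 + 1 := by
    rw [mul_add_one, ← one_add_one_eq_two, add_assoc]
  have h1 : (1 : Ordinal.{0}) ≤ 2 * δ + 1 := Order.one_le_iff_pos.2 (add_pos_of_right zero_lt_one _)
  rw [h2] at hA'
  obtain ⟨f, hf, hl⟩ := hA'.normal
  have hc : ∀ n, BS (2 * δ + 1) (f n)ᶜ := by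
    intro n
    rcases hl n with h | ⟨ε, hε, h⟩
    · exact BS.clopen _ _ h1 h.2.compl
    · exact h.mono (Order.lt_add_one_iff.1 hε)
  have hB : ∀ N, BS (2 * δ + 1) (⋂ n ∈ Finset.range N, (f n)ᶜ) := by
    intro N
    induction N with
    | zero =>
      have : (⋂ j ∈ Finset.range 0, (f j)ᶜ) = Set.univ := by simp
      rw [this]
      exact BS.clopen _ _ h1 isClopen_univ
    | succ k ih =>
      rw [Finset.range_add_one, Finset.set_biInter_insert]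
      exact (hc k).inter ih
  have hD : ∀ N, DS (2 * δ + 1) (⋂ n ∈ Finset.range N, (f n)ᶜ) := fun N =>
    BS.disjoint_normal _ _ (hB N)
  choose E hE1 hE2 hE3 using hD
  have hAx : ∀ x, x ∈ A ↔ ∀ n, x ∉ f n := by
    intro x
    have : x ∈ Aᶜ ↔ ∃ n, x ∈ f n := by rw [hf]; exact mem_iUnion
    rw [mem_compl_iff] at this
    constructor
    · intro hx n hn
      exact this.2 ⟨n, hn⟩ hx
    · intro h
      by_contra hx
      obtain ⟨n, hn⟩ := this.1 hx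
      exact h n hn
  have hEx : ∀ N x, (∃ m, x ∈ E N m) ↔ ∀ n < N, x ∉ f n := by
    intro N x
    rw [← mem_iUnion, ← hE2 N]
    simp
  refine ⟨fun N m => {(δ, E N m)}, ?_, ?_, ?_, ?_, ?_, ?_⟩
  · intro N m
    exact finite_singleton _
  · intro N m g hg
    rw [mem_singleton_iff.1 hg]
    exact ⟨lt_add_one δ, PP.of_low (hE3 N m)⟩
  · intro x hx N
    obtain ⟨m, hm⟩ := (hEx N x).2 fun n _ => (hAx x).1 hx n
    exact ⟨m, fun g hg => by rw [mem_singleton_iff.1 hg]; exact hm⟩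
  · intro x N
    by_cases h : ∃ m, x ∈ E N m
    · obtain ⟨m0, hm0⟩ := h
      refine ⟨m0, δ, lt_add_one δ, fun m hm => ⟨(δ, E N m), rfl, le_rfl, fun hx => ?_⟩⟩
      exact Set.disjoint_left.1 (hE1 N (by omega : m0 ≠ m)) hm0 hx
    · exact ⟨0, δ, lt_add_one δ, fun m _ => ⟨(δ, E N m), rfl, le_rfl, fun hx => h ⟨m, hx⟩⟩⟩
  · intro x hx
    have hx2 : ∃ n, x ∈ f n := by
      by_contra hc
      push Not at hc
      exact hx ((hAx x).2 hc)
    obtain ⟨n0, hn0⟩ := hx2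
    refine ⟨n0 + 1, δ, lt_add_one δ, fun N hN m => ⟨(δ, E N m), rfl, le_rfl, fun hxm => ?_⟩⟩
    exact (hEx N x).1 ⟨m, hxm⟩ n0 (by omega) hn0
  · intro ρ hρ
    exact ⟨0, fun N _ m => ⟨(δ, E N m), rfl, Order.lt_add_one_iff.1 hρ⟩⟩

theorem exists_gate_limit (γ : Ordinal.{0}) (hγ : Order.IsSuccLimit γ) (hc : (Iio γ).Countable)
    (A : Set Bai) (hA : PP γ A) : ∃ C, Gate γ A C := by
  have h0 : (0 : Ordinal.{0}) < γ := lt_of_lt_of_le zero_lt_one (one_lt_of_isSuccLimit hγ).le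
  have hA' : BS (2 * γ) Aᶜ := by
    rcases hA with h | h
    · exact absurd h.1 h0.ne'
    · exact h.2
  obtain ⟨f, hf, hl⟩ := hA'.normal
  have hc' : ∀ n, ∃ δ < γ, PP δ (f n)ᶜ := by
    intro n
    rcases hl n with h | ⟨ε, hε, h⟩
    · exact ⟨0, h0, PP.of_clopen h.2.compl⟩
    · obtain ⟨δ, hδ, hεδ⟩ := (lt_mul_iff_of_isSuccLimit hγ).1 hε
      refine ⟨δ, hδ, Or.inr ⟨?_, BS.compl _ ε _ hεδ h⟩⟩
      rintro rfl
      rw [mul_zero] at hεδ
      exact not_lt_zero hεδ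
  choose d hd1 hd2 using hc'
  obtain ⟨θ, hθ⟩ : ∃ θ : ℕ → Ordinal.{0}, Iio γ = range θ := hc.exists_eq_range ⟨0, h0⟩
  have hθlt : ∀ j, θ j < γ := fun j => by
    have : θ j ∈ Iio γ := by rw [hθ]; exact mem_range_self j
    exact this
  have hAx : ∀ x, x ∈ A ↔ ∀ n, x ∉ f n := by
    intro x
    have : x ∈ Aᶜ ↔ ∃ n, x ∈ f n := by rw [hf]; exact mem_iUnion
    rw [mem_compl_iff] at this
    constructor
    · intro hx n hn
      exact this.2 ⟨n, hn⟩ hx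
    · intro h
      by_contra hx
      obtain ⟨n, hn⟩ := this.1 hx
      exact h n hn
  classical
  let C : ℕ → ℕ → Set (Ordinal.{0} × Set Bai) := fun N m =>
    ((fun j => (d j, (f j)ᶜ)) '' Iic N ∪ (fun j => (θ j, (Set.univ : Set Bai))) '' Iic N) ∪
      {(0, if m = 0 then (Set.univ : Set Bai) else ∅)}
  refine ⟨C, ?_, ?_, ?_, ?_, ?_, ?_⟩
  · intro N m
    exact (((finite_Iic N).image _).union ((finite_Iic N).image _)).union (finite_singleton _)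
  · rintro N m g ((⟨j, _, rfl⟩ | ⟨j, _, rfl⟩) | hg)
    · exact ⟨hd1 j, hd2 j⟩
    · exact ⟨hθlt j, PP.univ _⟩
    · rw [mem_singleton_iff.1 hg]
      refine ⟨h0, PP.of_clopen ?_⟩
      split_ifs
      · exact isClopen_univ
      · exact isClopen_empty
  · intro x hx N
    refine ⟨0, ?_⟩
    rintro g ((⟨j, _, rfl⟩ | ⟨j, _, rfl⟩) | hg)
    · exact (hAx x).1 hx j
    · exact mem_univ _
    · rw [mem_singleton_iff.1 hg]
      simp
  · intro x N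
    refine ⟨0, 0, h0, fun m hm => ⟨(0, if m = 0 then (Set.univ : Set Bai) else ∅),
      Or.inr rfl, le_rfl, ?_⟩⟩
    rw [if_neg (by omega)]
    exact notMem_empty _
  · intro x hx
    have hx2 : ∃ n, x ∈ f n := by
      by_contra hc
      push Not at hc
      exact hx ((hAx x).2 hc)
    obtain ⟨n0, hn0⟩ := hx2
    refine ⟨n0, d n0, hd1 n0, fun N hN m => ⟨(d n0, (f n0)ᶜ), Or.inl (Or.inl ⟨n0, hN, rfl⟩),
      le_rfl, fun h => h hn0⟩⟩
  · intro ρ hρ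
    obtain ⟨j, hj⟩ : ρ ∈ range θ := by rw [← hθ]; exact hρ
    exact ⟨j, fun N hN m => ⟨(θ j, Set.univ), Or.inl (Or.inr ⟨j, hN, rfl⟩), hj.ge⟩⟩

theorem exists_gate (γ : Ordinal.{0}) (h0 : γ ≠ 0) (hc : (Iio γ).Countable)
    (A : Set Bai) (hA : PP γ A) : ∃ C, Gate γ A C := by
  rcases zero_or_succ_or_isSuccLimit γ with h | ⟨δ, rfl⟩ | h
  · exact absurd h h0
  · rw [Order.succ_eq_add_one] at hA ⊢
    exact exists_gate_succ δ A hA
  · exact exists_gate_limit γ h hc A hA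

end Pool.Agent.H31.Hahn
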