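import Pool.Agent.H31.Hahn.Defs

/-! Code systems with nodes in an arbitrary `Primcodable` type, and the notation system
`2 * o + i`. -/

namespace Pool.Agent.H31.Hahn

open Set Ordinal Encodable

theorem sigmaRel_of_nodes {S : Type} {rep : S → ℕ → ℕ} {o : ℕ → Ordinal.{0}} (ho : IsNotation o)
    {Nd : Type} [Primcodable Nd] (levN : Nd → ℕ) (childN : Nd → ℕ → Option (List ℕ ⊕ Nd))
    (VN : Nd → S → Prop) (hlev : Computable levN) (hchild : Computable₂ childN)
    (hbasic : ∀ c m σ, childN c m = some (Sum.inl σ) → 0 < o (levN c))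
    (hlower : ∀ c m d, childN c m = some (Sum.inr d) → o (levN d) < o (levN c))
    (heval : ∀ c s, VN c s ↔ ∃ m,
      (∃ σ : List ℕ, childN c m = some (Sum.inl σ) ∧ ∀ i (h : i < σ.length), rep s i = σ[i]) ∨
        ∃ d, childN c m = some (Sum.inr d) ∧ ¬ VN d s)
    (R : S → Prop) (c : Nd) (hR : ∀ s, R s ↔ VN c s) : SigmaRel rep (o (levN c)) R := by
  -- the code
  let lev : ℕ → ℕ := fun n => ((decode n : Option Nd).map levN).getD 0
  let tr : List ℕ ⊕ Nd → List ℕ ⊕ ℕ := fun x => Sum.casesOn x (fun σ => Sum.inl σ)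
    (fun d => Sum.inr (encode d))
  let child : ℕ → ℕ → Option (List ℕ ⊕ ℕ) := fun n m =>
    (decode n : Option Nd).bind fun c => (childN c m).map tr
  let V : ℕ → S → Prop := fun n s => ∃ c, (decode n : Option Nd) = some c ∧ VN c s
  have htr : Computable tr := by
    refine Computable.sumCasesOn Computable.id ?_ ?_
    · exact (Computable.sumInl.comp Computable.snd).to₂
    · exact (Computable.sumInr.comp (Computable.encode.comp Computable.snd)).to₂
  have hc1 : ∀ n c, (decode n : Option Nd) = some c → lev n = levN c := by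
    intro n c h
    simp [lev, h]
  have hc2 : ∀ n c m, (decode n : Option Nd) = some c → child n m = (childN c m).map tr := by
    intro n c m h
    simp [child, h]
  have hc3 : ∀ n m, (decode n : Option Nd) = none → child n m = none := by
    intro n m h
    simp [child, h]
  have htr1 : ∀ x σ, tr x = Sum.inl σ ↔ x = Sum.inl σ := by
    rintro (τ | d) σ <;> simp [tr]
  have htr2 : ∀ x d, tr x = Sum.inr d ↔ ∃ d', x = Sum.inr d' ∧ encode d' = d := by
    rintro (τ | d') d <;> simp [tr]
  refine ⟨o, ho, lev, child, V, ⟨?_, ?_, ?_, ?_, ?_⟩, encode c, ?_, ?_⟩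
  · exact Computable.option_getD (Computable.option_map Computable.decode
      (hlev.comp Computable.snd).to₂) (Computable.const 0)
  · refine Computable.option_bind (Computable.decode.comp Computable.fst) ?_
    refine Computable.option_map ?_ ?_
    · exact hchild.comp Computable.snd (Computable.snd.comp Computable.fst)
    · exact (htr.comp Computable.snd).to₂
  · intro n m σ h
    rcases hn : (decode n : Option Nd) with _ | c
    · rw [hc3 n m hn] at h; exact absurd h (by simp)
    · rw [hc2 n c m hn, Option.map_eq_some_iff] at h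
      obtain ⟨x, hx, hx2⟩ := h
      rw [htr1] at hx2
      rw [hc1 n c hn]
      exact hbasic c m σ (by rw [hx, hx2])
  · intro n m d h
    rcases hn : (decode n : Option Nd) with _ | c
    · rw [hc3 n m hn] at h; exact absurd h (by simp)
    · rw [hc2 n c m hn, Option.map_eq_some_iff] at h
      obtain ⟨x, hx, hx2⟩ := h
      obtain ⟨d', hd', rfl⟩ := (htr2 _ _).1 hx2
      rw [hc1 n c hn, hc1 (encode d') d' (encodek d')]
      exact hlower c m d' (by rw [hx, hd'])
  · intro n s
    rcases hn : (decode n : Option Nd) with _ | c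
    · constructor
      · rintro ⟨c, hc, _⟩
        rw [hn] at hc
        exact absurd hc (by simp)
      · rintro ⟨m, ⟨σ, h, _⟩ | ⟨d, h, _⟩⟩
        · rw [hc3 n m hn] at h; exact absurd h (by simp)
        · rw [hc3 n m hn] at h; exact absurd h (by simp)
    · have h1 : V n s ↔ VN c s := by
        constructor
        · rintro ⟨c', hc', h⟩
          rw [hn, Option.some.injEq] at hc'
          rwa [hc']
        · intro h
          exact ⟨c, hn, h⟩
      rw [h1, heval]
      refine exists_congr fun m => ?_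
      rw [hc2 n c m hn]
      constructor
      · rintro (⟨σ, h, hs⟩ | ⟨d, h, hd⟩)
        · exact Or.inl ⟨σ, by rw [h]; rfl, hs⟩
        · refine Or.inr ⟨encode d, by rw [h]; rfl, ?_⟩
          rintro ⟨d', hd', hV⟩
          rw [encodek, Option.some.injEq] at hd'
          exact hd (by rwa [hd'])
      · rintro (⟨σ, h, hs⟩ | ⟨d, h, hd⟩)
        · rw [Option.map_eq_some_iff] at h
          obtain ⟨x, hx, hx2⟩ := h
          exact Or.inl ⟨σ, by rw [hx, (htr1 _ _).1 hx2], hs⟩
        · rw [Option.map_eq_some_iff] at h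
          obtain ⟨x, hx, hx2⟩ := h
          obtain ⟨d', hd', rfl⟩ := (htr2 _ _).1 hx2
          exact Or.inr ⟨d', by rw [hx, hd'], fun hV => hd ⟨d', encodek d', hV⟩⟩
  · rw [hc1 _ c (encodek c)]
  · intro s
    rw [hR]
    constructor
    · intro h
      exact ⟨c, encodek c, h⟩
    · rintro ⟨c', hc', h⟩
      rw [encodek, Option.some.injEq] at hc'
      rwa [hc']

/-- A decision procedure for the order of notations. -/
theorem exists_bool {f : ℕ × ℕ → Prop} (h : ComputablePred f) :
    ∃ b : ℕ × ℕ → Bool, Computable b ∧ ∀ p, b p = true ↔ f p := by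
  obtain ⟨b, hb, he⟩ := ComputablePred.computable_iff.1 h
  exact ⟨b, hb, fun p => by rw [he]⟩

/-- Notations for `2 * γ + i`. -/
noncomputable def o2 (o : ℕ → Ordinal.{0}) (n : ℕ) : Ordinal.{0} :=
  2 * o n.unpair.1 + ((n.unpair.2 % 2 : ℕ) : Ordinal.{0})

theorem two_mul_add_lt {a b : Ordinal.{0}} {i j : ℕ} (hi : i < 2) (hab : a < b) :
    2 * a + (i : Ordinal.{0}) < 2 * b + (j : Ordinal.{0}) := by
  have h1 : 2 * a + (i : Ordinal.{0}) < 2 * a + 2 := by
    rw [add_lt_add_iff_left]
    exact_mod_cast hi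
  have h2 : 2 * a + 2 = 2 * (a + 1) := by rw [mul_add_one]
  have h3 : 2 * (a + 1) ≤ 2 * b := by
    refine mul_le_mul_right ?_ _
    rw [← Order.succ_eq_add_one]
    exact Order.succ_le_of_lt hab
  rw [h2] at h1
  exact (h1.trans_le h3).trans_le (le_add_of_nonneg_right zero_le)

theorem o2_lt_iff (o : ℕ → Ordinal.{0}) (x y : ℕ) : o2 o x < o2 o y ↔
    o x.unpair.1 < o y.unpair.1 ∨ (¬ o y.unpair.1 < o x.unpair.1 ∧
      x.unpair.2 % 2 < y.unpair.2 % 2) := by
  unfold o2
  have hx : x.unpair.2 % 2 < 2 := Nat.mod_lt _ (by norm_num)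
  have hy : y.unpair.2 % 2 < 2 := Nat.mod_lt _ (by norm_num)
  rcases lt_trichotomy (o x.unpair.1) (o y.unpair.1) with h | h | h
  · exact ⟨fun _ => Or.inl h, fun _ => two_mul_add_lt hx h⟩
  · rw [h, add_lt_add_iff_left, Nat.cast_lt]
    simp only [lt_irrefl, not_false_eq_true, true_and, false_or]
  · have := two_mul_add_lt (j := x.unpair.2 % 2) hy h
    constructor
    · intro h'
      exact absurd (h'.trans this) (lt_irrefl _)
    · rintro (h' | ⟨h', _⟩)
      · exact absurd (h'.trans h) (lt_irrefl _)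
      · exact absurd h h'

theorem IsNotation.o2 {o : ℕ → Ordinal.{0}} (ho : IsNotation o) : IsNotation (o2 o) where
  lt := by
    obtain ⟨b, hb, hb2⟩ := exists_bool ho.lt
    rw [ComputablePred.computable_iff]
    refine ⟨fun p => b (p.1.unpair.1, p.2.unpair.1) || (!b (p.2.unpair.1, p.1.unpair.1) &&
      decide (p.1.unpair.2 % 2 < p.2.unpair.2 % 2)), ?_, ?_⟩
    · have hor : Computable₂ (fun a b : Bool => a || b) := Primrec.or.to_comp
      have hand : Computable₂ (fun a b : Bool => a && b) := Primrec.and.to_comp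
      have hnot : Computable (fun a : Bool => !a) := Primrec.not.to_comp
      have h1 : Primrec (fun p : ℕ × ℕ => p.1.unpair.1) :=
        Primrec.fst.comp (Primrec.unpair.comp Primrec.fst)
      have h2 : Primrec (fun p : ℕ × ℕ => p.2.unpair.1) :=
        Primrec.fst.comp (Primrec.unpair.comp Primrec.snd)
      have h3 : Primrec (fun p : ℕ × ℕ => p.1.unpair.2 % 2) :=
        Primrec.nat_mod.comp (Primrec.snd.comp (Primrec.unpair.comp Primrec.fst)) (Primrec.const 2)
      have h4 : Primrec (fun p : ℕ × ℕ => p.2.unpair.2 % 2) :=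
        Primrec.nat_mod.comp (Primrec.snd.comp (Primrec.unpair.comp Primrec.snd)) (Primrec.const 2)
      have h5 : Computable (fun p : ℕ × ℕ => decide (p.1.unpair.2 % 2 < p.2.unpair.2 % 2)) :=
        (Primrec.nat_lt.comp h3 h4).decide.to_comp
      exact hor.comp (hb.comp (h1.to_comp.pair h2.to_comp))
        (hand.comp (hnot.comp (hb.comp (h2.to_comp.pair h1.to_comp))) h5)
    · funext p
      simp only [o2_lt_iff, Bool.or_eq_true, Bool.and_eq_true, Bool.not_eq_true',
        decide_eq_true_eq, hb2, ← Bool.not_eq_true]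
  init := by
    intro a β hβ
    have h1 : Hahn.o2 o a < 2 * (o a.unpair.1 + 1) := by
      have := two_mul_add_lt (i := a.unpair.2 % 2) (j := 0) (Nat.mod_lt _ (by norm_num))
        (lt_add_one (o a.unpair.1))
      simpa [Hahn.o2] using this
    obtain ⟨q, hq, r, hr, rfl⟩ := lt_mul_iff.1 (hβ.trans h1)
    obtain ⟨c, hc⟩ : ∃ c, o c = q := by
      rcases lt_or_eq_of_le (Order.lt_add_one_iff.1 hq) with h | h
      · exact ho.init _ q h
      · exact ⟨_, h.symm⟩
    obtain ⟨n, rfl⟩ : ∃ n : ℕ, r = n := by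
      exact Ordinal.lt_omega0.1 (hr.trans (by exact_mod_cast natCast_lt_omega0 2))
    have hn : n < 2 := by exact_mod_cast hr
    refine ⟨Nat.pair c n, ?_⟩
    simp [Hahn.o2, hc, Nat.mod_eq_of_lt hn]

end Pool.Agent.H31.Hahn
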