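import Pool.Agent.H31.Hahn.Otp

/-! Semantics of the formulas used for the upper bounds. -/

namespace Pool.Agent.H31.Hahn

open Set Ordinal

variable {G : Type} [LinearOrder G]

/-- Intervals: `a = 0` means no lower bound, `a = n + 1` means `e n ≤ g`; `b = 0` means no upper
bound, `b = n + 1` means `g < e n`. -/
def Iv (e : ℕ ≃ G) (a b : ℕ) : Set G :=
  {g | (∀ n, a = n + 1 → e n ≤ g) ∧ (∀ n, b = n + 1 → g < e n)}

variable {e : ℕ ≃ G} {T : Set G}

theorem otp_split (hT : T.IsWF) {a b : ℕ} {ξ η : Ordinal.{0}} (hξ : 0 < ξ) (hη : 0 < η) :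
    ξ + η ≤ otp (T ∩ Iv e a b) ↔
      ∃ t, ξ ≤ otp (T ∩ Iv e a (t + 1)) ∧ η ≤ otp (T ∩ Iv e (t + 1) b) := by
  have hwf : ∀ a b, (T ∩ Iv e a b).IsWF := fun a b => hT.mono inter_subset_left
  constructor
  · intro h
    have hlt : ξ < otp (T ∩ Iv e a b) := lt_of_lt_of_le (lt_add_of_pos_right ξ hη) h
    obtain ⟨g, hg, hξg⟩ := exists_otp_initial (hwf a b) hlt
    obtain ⟨t, rfl⟩ := e.surjective g
    have h1 : (T ∩ Iv e a b) ∩ Iio (e t) = T ∩ Iv e a (t + 1) := by
      ext x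
      constructor
      · rintro ⟨⟨hx1, hx2, hx3⟩, hx4⟩
        refine ⟨hx1, hx2, fun n hn => ?_⟩
        have : n = t := by omega
        rw [this]; exact hx4
      · rintro ⟨hx1, hx2, hx3⟩
        have hx4 := hx3 t rfl
        exact ⟨⟨hx1, hx2, fun n hn => hx4.trans (hg.2.2 n hn)⟩, hx4⟩
    have h2 : (T ∩ Iv e a b) ∩ Ici (e t) = T ∩ Iv e (t + 1) b := by
      ext x
      constructor
      · rintro ⟨⟨hx1, hx2, hx3⟩, hx4⟩
        refine ⟨hx1, fun n hn => ?_, hx3⟩
        have : n = t := by omega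
        rw [this]; exact hx4
      · rintro ⟨hx1, hx2, hx3⟩
        have hx4 := hx2 t rfl
        exact ⟨⟨hx1, fun n hn => (hg.2.1 n hn).trans hx4, hx3⟩, hx4⟩
    have h3 : T ∩ Iv e a b = ((T ∩ Iv e a b) ∩ Iio (e t)) ∪ ((T ∩ Iv e a b) ∩ Ici (e t)) := by
      rw [← inter_union_distrib_left, Iio_union_Ici, inter_univ]
    have h4 : otp (T ∩ Iv e a b) =
        otp ((T ∩ Iv e a b) ∩ Iio (e t)) + otp ((T ∩ Iv e a b) ∩ Ici (e t)) := by
      conv_lhs => rw [h3]
      exact otp_union ((hwf a b).mono inter_subset_left) ((hwf a b).mono inter_subset_left)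
        fun x hx y hy => lt_of_lt_of_le (mem_Iio.1 hx.2) hy.2
    rw [h4, hξg, h2] at h
    refine ⟨t, ?_, ?_⟩
    · rw [← h1, hξg]
    · exact (add_le_add_iff_left ξ).1 h
  · rintro ⟨t, h1, h2⟩
    have hne1 : (T ∩ Iv e a (t + 1)).Nonempty := by
      rw [← one_le_otp_iff (hwf _ _)]
      exact (Order.one_le_iff_pos.2 hξ).trans h1
    have hne2 : (T ∩ Iv e (t + 1) b).Nonempty := by
      rw [← one_le_otp_iff (hwf _ _)]
      exact (Order.one_le_iff_pos.2 hη).trans h2
    obtain ⟨g1, _, hg1a, hg1b⟩ := hne1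
    obtain ⟨g2, _, hg2a, hg2b⟩ := hne2
    have h3 : otp (T ∩ Iv e a (t + 1) ∪ T ∩ Iv e (t + 1) b) ≤ otp (T ∩ Iv e a b) := by
      refine otp_mono ?_ (hwf _ _)
      rintro x (⟨hx, hx1, hx2⟩ | ⟨hx, hx1, hx2⟩)
      · exact ⟨hx, hx1, fun n hn => ((hx2 t rfl).trans_le (hg2a t rfl)).trans (hg2b n hn)⟩
      · exact ⟨hx, fun n hn => ((hg1a n hn).trans (hg1b t rfl).le).trans (hx1 t rfl), hx2⟩
    rw [otp_union (hwf _ _) (hwf _ _)] at h3
    · exact (add_le_add h1 h2).trans h3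
    · rintro x ⟨_, _, hx2⟩ y ⟨_, hy1, _⟩
      exact (hx2 t rfl).trans_le (hy1 t rfl)

/-- The cut points of a decomposition of the interval. -/
def cuts (a : ℕ) (ts : List ℕ) (b : ℕ) : List ℕ := a :: (ts.map Nat.succ ++ [b])

theorem sum_pos {c : Ordinal.{0}} {cs : List Ordinal.{0}} :
    0 < ((c :: cs).map (ω ^ ·)).sum := by
  rw [List.map_cons, List.sum_cons]
  exact lt_of_lt_of_le (opow_pos _ omega0_pos) (le_add_of_nonneg_right zero_le)

theorem pieces_iff (hT : T.IsWF) (b : ℕ) : ∀ (cs : List Ordinal.{0}), cs ≠ [] → ∀ a,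
    ((∃ ts : List ℕ, ts.length + 1 = cs.length ∧ ∀ (i : ℕ) (c : Ordinal.{0}) (x y : ℕ), cs[i]? = some c →
      (cuts a ts b)[i]? = some x → (cuts a ts b)[i + 1]? = some y →
        ω ^ c ≤ otp (T ∩ Iv e x y)) ↔ (cs.map (ω ^ ·)).sum ≤ otp (T ∩ Iv e a b))
  | [], h, _ => absurd rfl h
  | [c], _, a => by
    simp only [List.map_cons, List.map_nil, List.sum_cons, List.sum_nil, add_zero]
    constructor
    · rintro ⟨ts, hts, h⟩
      have : ts = [] := by
        rw [← List.length_eq_zero_iff]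
        simpa using hts
      subst this
      exact h 0 c a b rfl rfl rfl
    · intro h
      refine ⟨[], rfl, ?_⟩
      rintro (_ | i) c' x y h1 h2 h3
      · simp only [cuts, List.map_nil, List.nil_append, List.getElem?_cons_zero,
          Option.some.injEq, zero_add, List.getElem?_cons_succ] at h1 h2 h3
        subst h1; subst h2; subst h3
        exact h
      · simp at h1
  | c :: c' :: cs, _, a => by
    rw [List.map_cons, List.sum_cons, otp_split hT (opow_pos _ omega0_pos) sum_pos]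
    constructor
    · rintro ⟨ts, hts, h⟩
      cases ts with
      | nil => simp at hts
      | cons t ts =>
        refine ⟨t, h 0 c a (t + 1) rfl rfl rfl, ?_⟩
        rw [← pieces_iff hT b (c' :: cs) (by simp) (t + 1)]
        refine ⟨ts, by simpa using hts, fun i d x y h1 h2 h3 => ?_⟩
        exact h (i + 1) d x y h1 h2 h3
    · rintro ⟨t, h1, h2⟩
      rw [← pieces_iff hT b (c' :: cs) (by simp) (t + 1)] at h2
      obtain ⟨ts, hts, h⟩ := h2
      refine ⟨t :: ts, by simpa using hts, ?_⟩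
      rintro (_ | i) d x y h3 h4 h5
      · simp only [cuts, List.map_cons, List.cons_append, List.getElem?_cons_zero,
          Option.some.injEq, zero_add, List.getElem?_cons_succ] at h3 h4 h5
        subst h3; subst h4; subst h5
        exact h1
      · exact h i d x y h3 h4 h5

/-- `ω ^ ε ≤ λ` in terms of smaller exponents. -/
theorem opow_le_iff {ε L : Ordinal.{0}} (hε : ε ≠ 0) :
    ω ^ ε ≤ L ↔ ω ≤ L ∧ ∀ δ < ε, δ ≠ 0 → ∀ k : ℕ, ω ^ δ * ((k + 1 : ℕ) : Ordinal.{0}) ≤ L := by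
  constructor
  · intro h
    refine ⟨le_trans ?_ h, fun δ hδ _ k => le_trans (opow_mul_lt_opow (natCast_lt_omega0 _) hδ).le h⟩
    conv_lhs => rw [← opow_one ω]
    exact (opow_le_opow_iff_right one_lt_omega0).2 (Order.one_le_iff_pos.2 (pos_iff_ne_zero.2 hε))
  · rintro ⟨h1, h2⟩
    by_contra hc
    obtain ⟨δ, hδ, n, hn⟩ := (lt_omega0_opow hε).1 (not_le.1 hc)
    by_cases h0 : δ = 0
    · rw [h0, opow_zero, one_mul] at hn
      exact absurd (lt_of_le_of_lt h1 hn) (not_lt.2 (natCast_lt_omega0 n).le)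
    · have h3 := h2 δ hδ h0 n
      refine absurd (lt_of_le_of_lt h3 hn) (not_lt.2 ?_)
      exact mul_le_mul_right (Nat.cast_le.2 n.le_succ) _

theorem sum_replicate (δ : Ordinal.{0}) (k : ℕ) :
    ((List.replicate k δ).map (ω ^ ·)).sum = ω ^ δ * (k : Ordinal.{0}) := by
  induction k with
  | zero => simp
  | succ k ih =>
    rw [List.replicate_succ, List.map_cons, List.sum_cons, ih, Nat.cast_succ]
    rw [← Nat.cast_succ, Nat.succ_eq_one_add, Nat.cast_add, Nat.cast_one, mul_add, mul_one]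

end Pool.Agent.H31.Hahn
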