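import Pool.Agent.H31.Hahn.Nodes
import Pool.Agent.H31.Hahn.Sem

/-! The code system for the upper bounds. -/

namespace Pool.Agent.H31.Hahn

open Set Ordinal Encodable

/-- The nodes. -/
abbrev Nd := (ℕ × ℕ × ℕ) ⊕ (ℕ × List ℕ × List ℕ) ⊕ (ℕ × List ℕ × ℕ × ℕ) ⊕ ℕ

def ndR (k a b : ℕ) : Nd := Sum.inl (k, a, b)
def ndM (c : ℕ) (cs l : List ℕ) : Nd := Sum.inr (Sum.inl (c, cs, l))
def ndS (c : ℕ) (cs : List ℕ) (a b : ℕ) : Nd := Sum.inr (Sum.inr (Sum.inl (c, cs, a, b)))
def ndF (n : ℕ) : Nd := Sum.inr (Sum.inr (Sum.inr n))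

section Child

variable (lo lg : ℕ × ℕ → Bool) (z0 b0 : ℕ)

def levN : Nd → ℕ
  | Sum.inl _ => Nat.pair b0 1
  | Sum.inr (Sum.inl p) => Nat.pair p.1 0
  | Sum.inr (Sum.inr (Sum.inl p)) => Nat.pair p.1 1
  | Sum.inr (Sum.inr (Sum.inr _)) => Nat.pair b0 1

def tR (p : ℕ × ℕ × ℕ) (σ : List ℕ) : Bool :=
  (!(decide (σ.getD (σ.length - 1) z0 = z0)) && decide (p.1 ≤ σ.length - 1)) &&
    ((decide (p.2.1 = 0) || !lg (σ.length - 1, p.2.1 - 1)) &&
      (decide (p.2.2 = 0) || lg (σ.length - 1, p.2.2 - 1)))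

def chR (p : ℕ × ℕ × ℕ) (m : ℕ) : Option (List ℕ ⊕ Nd) :=
  (decode m : Option (List ℕ)).bind fun σ =>
    bif tR lg z0 p σ then some (Sum.inl σ) else none

def Qn (d k x y : ℕ) : Nd :=
  bif lo (b0, d) then ndS d ((List.range (k + 1)).map fun _ => d) x y else ndR k x y

def tM (c ci d k : ℕ) : Bool :=
  lo (d, c) && (lo (d, ci) || ((!lo (b0, ci) && !lo (b0, d)) && decide (k = 0)))

def chM (p : ℕ × List ℕ × List ℕ) (m : ℕ) : Option (List ℕ ⊕ Nd) :=
  (p.2.1[m.unpair.1]?).bind fun ci => (p.2.2[m.unpair.1]?).bind fun x =>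
    (p.2.2[m.unpair.1 + 1]?).bind fun y =>
      bif tM lo b0 p.1 ci m.unpair.2.unpair.1 m.unpair.2.unpair.2 then
        some (Sum.inr (Qn lo b0 m.unpair.2.unpair.1 m.unpair.2.unpair.2 x y)) else none

def chS (p : ℕ × List ℕ × ℕ × ℕ) (m : ℕ) : Option (List ℕ ⊕ Nd) :=
  (decode m : Option (List ℕ)).bind fun ts =>
    bif decide (ts.length + 1 = p.2.1.length) then
      some (Sum.inr (ndM p.1 p.2.1 (cuts p.2.2.1 ts p.2.2.2))) else none

def chF (n m : ℕ) : Option (List ℕ ⊕ Nd) :=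
  (decode m : Option (List ℕ)).bind fun σ =>
    bif decide (n ≤ (σ.filter fun a => decide (a ≠ z0)).length) then some (Sum.inl σ) else none

def childN : Nd → ℕ → Option (List ℕ ⊕ Nd)
  | Sum.inl p, m => chR lg z0 p m
  | Sum.inr (Sum.inl p), m => chM lo b0 p m
  | Sum.inr (Sum.inr (Sum.inl p)), m => chS p m
  | Sum.inr (Sum.inr (Sum.inr n)), m => chF z0 n m

end Child

/-! ### Semantics -/

section Semantics

variable {G : Type} [LinearOrder G] (e : ℕ ≃ G) (o : ℕ → Ordinal.{0}) (T : Set G)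

def VM (c : ℕ) (cs l : List ℕ) : Prop :=
  0 < o c ∧ ∃ (i ci x y : ℕ), cs[i]? = some ci ∧ l[i]? = some x ∧ l[i + 1]? = some y ∧
    ¬ (ω ^ (min (o ci) (o c)) ≤ otp (T ∩ Iv e x y))

def VN : Nd → Prop
  | Sum.inl p => ∃ n, p.1 ≤ n ∧ e n ∈ T ∩ Iv e p.2.1 p.2.2
  | Sum.inr (Sum.inl p) => VM e o T p.1 p.2.1 p.2.2
  | Sum.inr (Sum.inr (Sum.inl p)) => ∃ ts : List ℕ, ts.length + 1 = p.2.1.length ∧
      ¬ VM e o T p.1 p.2.1 (cuts p.2.2.1 ts p.2.2.2)
  | Sum.inr (Sum.inr (Sum.inr n)) => (n : Ordinal.{0}) ≤ otp T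

variable {e o T}

theorem VN_S (hT : T.IsWF) {c : ℕ} (hc : o c ≠ 0) {cs : List ℕ} (hne : cs ≠ [])
    (hle : ∀ ci ∈ cs, o ci ≤ o c) (a b : ℕ) :
    VN e o T (ndS c cs a b) ↔ ((cs.map o).map (ω ^ ·)).sum ≤ otp (T ∩ Iv e a b) := by
  rw [← pieces_iff hT b (cs.map o) (by simpa using hne) a]
  show (∃ ts : List ℕ, ts.length + 1 = cs.length ∧ ¬ VM e o T c cs (cuts a ts b)) ↔ _
  refine exists_congr fun ts => ?_
  rw [List.length_map]
  refine and_congr Iff.rfl ?_
  unfold VM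
  constructor
  · intro h i c' x y h1 h2 h3
    rw [List.getElem?_map, Option.map_eq_some_iff] at h1
    obtain ⟨ci, hci, rfl⟩ := h1
    by_contra hcon
    refine h ⟨pos_iff_ne_zero.2 hc, i, ci, x, y, hci, h2, h3, ?_⟩
    rwa [min_eq_left (hle ci (List.mem_of_getElem? hci))]
  · rintro h ⟨_, i, ci, x, y, h1, h2, h3, h4⟩
    rw [min_eq_left (hle ci (List.mem_of_getElem? h1))] at h4
    exact h4 (h i (o ci) x y (by rw [List.getElem?_map, h1]; rfl) h2 h3)

variable {lo : ℕ × ℕ → Bool} (hlo : ∀ p, lo p = true ↔ o p.1 < o p.2) {b0 : ℕ} (hb0 : o b0 = 0)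

include hlo hb0

theorem Qn_zero {d k x y : ℕ} (hd : o d = 0) : Qn lo b0 d k x y = ndR k x y := by
  have : lo (b0, d) = false := by
    rw [← Bool.not_eq_true, hlo, hb0, hd]
    exact lt_irrefl _
  rw [Qn, this]
  rfl

theorem Qn_pos {d k x y : ℕ} (hd : o d ≠ 0) :
    Qn lo b0 d k x y = ndS d (List.replicate (k + 1) d) x y := by
  have : lo (b0, d) = true := by
    rw [hlo, hb0]
    exact pos_iff_ne_zero.2 hd
  rw [Qn, this]
  simp [List.map_const']

theorem VN_Qn_zero {d k x y : ℕ} (hd : o d = 0) :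
    VN e o T (Qn lo b0 d k x y) ↔ ∃ n, k ≤ n ∧ e n ∈ T ∩ Iv e x y := by
  rw [Qn_zero hlo hb0 hd]
  rfl

theorem VN_Qn_pos (hT : T.IsWF) {d k x y : ℕ} (hd : o d ≠ 0) :
    VN e o T (Qn lo b0 d k x y) ↔ ω ^ o d * ((k + 1 : ℕ) : Ordinal.{0}) ≤ otp (T ∩ Iv e x y) := by
  rw [Qn_pos hlo hb0 hd, VN_S hT hd (by simp) (fun ci hci => by rw [List.eq_of_mem_replicate hci]),
    List.map_replicate, sum_replicate]

theorem infinite_iff {U : Set G} : U.Infinite ↔ ∀ k, ∃ n, k ≤ n ∧ e n ∈ U := by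
  have h1 : U.Infinite ↔ (e ⁻¹' U).Infinite := by
    rw [← Set.infinite_image_iff (e.injective.injOn (s := e ⁻¹' U)), image_preimage_eq _ e.surjective]
  rw [h1]
  constructor
  · intro h k
    obtain ⟨n, hn, hk⟩ := h.exists_gt k
    exact ⟨n, hk.le, hn⟩
  · intro h
    refine Set.infinite_of_forall_exists_gt fun k => ?_
    obtain ⟨n, hn, hn2⟩ := h (k + 1)
    exact ⟨n, hn2, by omega⟩

theorem opow_le_iff_Qn (hT : T.IsWF) {ε : Ordinal.{0}} (hε : ε ≠ 0)
    (hran : ∀ δ < ε, ∃ d, o d = δ) (x y : ℕ) :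
    ω ^ ε ≤ otp (T ∩ Iv e x y) ↔ ∀ d, o d < ε → ∀ k, VN e o T (Qn lo b0 d k x y) := by
  rw [opow_le_iff hε, omega_le_otp_iff (hT.mono inter_subset_left),
    infinite_iff (e := e) hlo hb0]
  constructor
  · rintro ⟨h1, h2⟩ d hd k
    by_cases h0 : o d = 0
    · rw [VN_Qn_zero hlo hb0 h0]; exact h1 k
    · rw [VN_Qn_pos hlo hb0 hT h0]; exact h2 _ hd h0 k
  · intro h
    refine ⟨fun k => ?_, fun δ hδ h0 k => ?_⟩
    · have := h b0 (by rw [hb0]; exact pos_iff_ne_zero.2 hε) k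
      rwa [VN_Qn_zero hlo hb0 hb0] at this
    · obtain ⟨d, rfl⟩ := hran δ hδ
      have := h d hδ k
      rwa [VN_Qn_pos hlo hb0 hT h0] at this

theorem tM_iff (c ci d k : ℕ) : tM lo b0 c ci d k = true ↔
    o d < o c ∧ (o d < o ci ∨ (o ci = 0 ∧ o d = 0) ∧ k = 0) := by
  simp only [tM, Bool.and_eq_true, Bool.or_eq_true, hlo, Bool.not_eq_true', ← Bool.not_eq_true,
    decide_eq_true_eq, hb0, pos_iff_ne_zero, not_not, ne_eq]

theorem eval_M (hT : T.IsWF) (hinit : ∀ a, ∀ β < o a, ∃ b, o b = β) (c : ℕ) (cs l : List ℕ) :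
    VM e o T c cs l ↔ ∃ m, ∃ d, chM lo b0 (c, cs, l) m = some (Sum.inr d) ∧ ¬ VN e o T d := by
  constructor
  · rintro ⟨h0, i, ci, x, y, h1, h2, h3, h4⟩
    by_cases hci : o ci = 0
    · refine ⟨Nat.pair i (Nat.pair b0 0), Qn lo b0 b0 0 x y, ?_, ?_⟩
      · have ht : tM lo b0 c ci b0 0 = true := by
          rw [tM_iff hlo hb0]
          exact ⟨by rwa [hb0], Or.inr ⟨⟨hci, hb0⟩, rfl⟩⟩
        simp [chM, h1, h2, h3, ht]
      · rw [VN_Qn_zero hlo hb0 hb0]
        rintro ⟨n, _, hn⟩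
        apply h4
        rw [hci, min_eq_left zero_le, opow_zero, one_le_otp_iff (hT.mono inter_subset_left)]
        exact ⟨_, hn⟩
    · have hε : min (o ci) (o c) ≠ 0 := by
        rcases min_choice (o ci) (o c) with h | h
        · rw [h]; exact hci
        · rw [h]; exact h0.ne'
      rw [opow_le_iff_Qn hlo hb0 hT hε (fun δ hδ => hinit c δ (hδ.trans_le (min_le_right _ _)))]
        at h4
      push Not at h4
      obtain ⟨d, hd, k, hk⟩ := h4
      refine ⟨Nat.pair i (Nat.pair d k), Qn lo b0 d k x y, ?_, hk⟩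
      have ht : tM lo b0 c ci d k = true := by
        rw [tM_iff hlo hb0]
        exact ⟨hd.trans_le (min_le_right _ _), Or.inl (hd.trans_le (min_le_left _ _))⟩
      simp [chM, h1, h2, h3, ht]
  · rintro ⟨m, d', hm, hd'⟩
    simp only [chM, Option.bind_eq_some_iff] at hm
    obtain ⟨ci, h1, x, h2, y, h3, h4⟩ := hm
    rcases ht : tM lo b0 c ci m.unpair.2.unpair.1 m.unpair.2.unpair.2 with _ | _
    · rw [ht] at h4; simp at h4
    · rw [ht] at h4
      simp only [cond_true, Option.some.injEq, Sum.inr.injEq] at h4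
      rw [tM_iff hlo hb0] at ht
      refine ⟨lt_of_le_of_lt zero_le ht.1, m.unpair.1, ci, x, y, h1, h2, h3, ?_⟩
      rw [← h4] at hd'
      rcases ht.2 with h | ⟨⟨h, h'⟩, hk⟩
      · have hlt : o m.unpair.2.unpair.1 < min (o ci) (o c) := lt_min h ht.1
        rw [opow_le_iff_Qn hlo hb0 hT (lt_of_le_of_lt zero_le hlt).ne'
          (fun δ hδ => hinit c δ (hδ.trans_le (min_le_right _ _)))]
        intro hall
        exact hd' (hall _ hlt _)
      · rw [VN_Qn_zero hlo hb0 h', hk] at hd'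
        rw [h, min_eq_left zero_le, opow_zero, one_le_otp_iff (hT.mono inter_subset_left)]
        rintro ⟨g, hg⟩
        obtain ⟨n, rfl⟩ := e.surjective g
        exact hd' ⟨n, Nat.zero_le _, hg⟩

omit hlo hb0

theorem eval_S (p : ℕ × List ℕ × ℕ × ℕ) :
    (∃ ts : List ℕ, ts.length + 1 = p.2.1.length ∧ ¬ VM e o T p.1 p.2.1 (cuts p.2.2.1 ts p.2.2.2)) ↔
      ∃ m, ∃ d, chS p m = some (Sum.inr d) ∧ ¬ VN e o T d := by
  constructor
  · rintro ⟨ts, h1, h2⟩
    exact ⟨encode ts, ndM p.1 p.2.1 (cuts p.2.2.1 ts p.2.2.2), by simp [chS, h1], h2⟩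
  · rintro ⟨m, d, hm, hd⟩
    simp only [chS, Option.bind_eq_some_iff] at hm
    obtain ⟨ts, _, h⟩ := hm
    rcases ht : decide (ts.length + 1 = p.2.1.length) with _ | _
    · rw [ht] at h; simp at h
    · rw [ht] at h
      simp only [cond_true, Option.some.injEq, Sum.inr.injEq] at h
      rw [← h] at hd
      exact ⟨ts, of_decide_eq_true ht, hd⟩

theorem prefix_eq (f : ℕ → ℕ) (σ : List ℕ) :
    (∀ i (h : i < σ.length), f i = σ[i]) ↔ σ = (List.range σ.length).map f := by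
  constructor
  · intro h
    apply List.ext_getElem
    · simp
    · intro i h1 h2
      simp [h i h1]
  · intro h i hi
    have : σ[i]? = ((List.range σ.length).map f)[i]? := by rw [← h]
    rw [List.getElem?_map, List.getElem?_range hi, List.getElem?_eq_getElem hi] at this
    simpa using this.symm

variable {lg : ℕ × ℕ → Bool} (hlg : ∀ p, lg p = true ↔ e p.1 < e p.2) {z0 : ℕ} {f : ℕ → ℕ}
  (hf : ∀ n, f n ≠ z0 ↔ e n ∈ T)

include hlg in
theorem interval_iff (n a b : ℕ) :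
    ((decide (a = 0) || !lg (n, a - 1)) && (decide (b = 0) || lg (n, b - 1))) = true ↔
      e n ∈ Iv e a b := by
  simp only [Bool.and_eq_true, Bool.or_eq_true, decide_eq_true_eq, Bool.not_eq_true',
    ← Bool.not_eq_true, hlg, not_lt]
  refine and_congr ?_ ?_
  · cases a with
    | zero => simp
    | succ a => simp
  · cases b with
    | zero => simp
    | succ b => simp

include hlg hf in
theorem eval_R (p : ℕ × ℕ × ℕ) :
    (∃ n, p.1 ≤ n ∧ e n ∈ T ∩ Iv e p.2.1 p.2.2) ↔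
      ∃ m, ∃ σ : List ℕ, chR lg z0 p m = some (Sum.inl σ) ∧ ∀ i (h : i < σ.length), f i = σ[i] := by
  constructor
  · rintro ⟨n, h1, h2, h3⟩
    refine ⟨encode ((List.range (n + 1)).map f), (List.range (n + 1)).map f, ?_, ?_⟩
    · have hlen : ((List.range (n + 1)).map f).length - 1 = n := by simp
      have ht : tR lg z0 p ((List.range (n + 1)).map f) = true := by
        rw [tR, hlen, Bool.and_eq_true, Bool.and_eq_true, interval_iff hlg]
        refine ⟨⟨?_, decide_eq_true h1⟩, h3⟩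
        have : ((List.range (n + 1)).map f).getD n z0 = f n := by
          simp [List.getD_eq_getElem?_getD]
        rw [this, Bool.not_eq_true', decide_eq_false_iff_not]
        exact (hf n).2 h2
      simp [chR, ht]
    · rw [prefix_eq]
      simp
  · rintro ⟨m, σ, hm, hσ⟩
    simp only [chR, Option.bind_eq_some_iff] at hm
    obtain ⟨τ, _, h⟩ := hm
    rcases ht : tR lg z0 p τ with _ | _
    · rw [ht] at h; simp at h
    · rw [ht] at h
      simp only [cond_true, Option.some.injEq, Sum.inl.injEq] at h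
      subst h
      rw [tR, Bool.and_eq_true, Bool.and_eq_true, interval_iff hlg] at ht
      obtain ⟨⟨h1, h2⟩, h3⟩ := ht
      refine ⟨τ.length - 1, of_decide_eq_true h2, ?_, h3⟩
      rw [Bool.not_eq_true', decide_eq_false_iff_not] at h1
      rw [← hf]
      by_cases hτ : τ.length = 0
      · exfalso
        rw [List.length_eq_zero_iff] at hτ
        rw [hτ] at h1
        exact h1 (by simp)
      · have hlt : τ.length - 1 < τ.length := by omega
        rw [hσ _ hlt]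
        rwa [List.getD_eq_getElem _ _ hlt] at h1

include hf in
theorem eval_F (hT : T.IsWF) (n : ℕ) :
    (n : Ordinal.{0}) ≤ otp T ↔
      ∃ m, ∃ σ : List ℕ, chF z0 n m = some (Sum.inl σ) ∧ ∀ i (h : i < σ.length), f i = σ[i] := by
  classical
  have key : ∀ L : ℕ, (((List.range L).map f).filter fun a => decide (a ≠ z0)).length =
      ((Finset.range L).filter fun i => f i ≠ z0).card := by
    intro L
    rw [List.filter_map, List.length_map]
    rfl
  rw [nat_le_otp_iff hT]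
  constructor
  · rintro ⟨t, ht, htn⟩
    obtain ⟨L, hL⟩ : ∃ L : ℕ, ∀ g ∈ t, e.symm g < L := by
      refine ⟨(t.image e.symm).sup id + 1, fun g hg => ?_⟩
      exact Nat.lt_succ_of_le (Finset.le_sup (f := id) (Finset.mem_image_of_mem _ hg))
    refine ⟨encode ((List.range L).map f), (List.range L).map f, ?_, ?_⟩
    · have h1 : n ≤ (((List.range L).map f).filter fun a => decide (a ≠ z0)).length := by
        rw [key, ← htn, ← Finset.card_map e.symm.toEmbedding]
        refine Finset.card_le_card ?_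
        intro i hi
        rw [Finset.mem_map] at hi
        obtain ⟨g, hg, rfl⟩ := hi
        rw [Finset.mem_filter, Finset.mem_range]
        refine ⟨hL g hg, ?_⟩
        rw [hf]
        show e (e.symm g) ∈ T
        rw [e.apply_symm_apply]
        exact ht hg
      simp only [chF, encodek, Option.bind_some]
      rw [decide_eq_true h1]
      rfl
    · rw [prefix_eq]
      simp
  · rintro ⟨m, σ, hm, hσ⟩
    simp only [chF, Option.bind_eq_some_iff] at hm
    obtain ⟨τ, _, h⟩ := hm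
    rcases ht : decide (n ≤ (τ.filter fun a => decide (a ≠ z0)).length) with _ | _
    · rw [ht] at h; simp at h
    · rw [ht] at h
      simp only [cond_true, Option.some.injEq, Sum.inl.injEq] at h
      subst h
      have h1 := of_decide_eq_true ht
      rw [(prefix_eq f τ).1 hσ, key] at h1
      obtain ⟨t, ht1, ht2⟩ := Finset.exists_subset_card_eq h1
      refine ⟨t.map e.toEmbedding, ?_, by rw [Finset.card_map, ht2]⟩
      intro g hg
      rw [Finset.mem_coe, Finset.mem_map] at hg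
      obtain ⟨i, hi, rfl⟩ := hg
      exact (hf i).1 (Finset.mem_filter.1 (ht1 hi)).2

end Semantics

end Pool.Agent.H31.Hahn
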